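import Pool.Agent.Lib.MP_2619d0_ag.L.Defs
import Pool.Agent.Lib.MP_2619d0_ag.Q8.V20

/-!
Row l-3a: the closure of the graph, elementary properties
-/

set_option autoImplicit false

namespace MP2619.Q6

universe u

open scoped NNReal
open IntermediateField MP2619.R MP2619.N Pool.Agent.Lib.MP_2619d0_ag Pool.Agent.Lib.MP_2619d0_ag.T
  MP2619.Q5

/-- images of points of the closure of the graph. PROOF. `MvPolynomial.comp_aeval_apply` for `A.val` (injective) and for `g`. -/
theorem lim_map {n N s r : ℕ} (K : Bk n N s) {k0 κ κ' : Type} [Field k0] [Field κ] [Field κ']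
    [Algebra k0 κ] [Algebra k0 κ'] (f : Fin r → MvPolynomial (Fin N) k0) (A : Subalgebra k0 κ)
    (g : A →ₐ[k0] κ') (PA : Fin N → A) (xA : Fin r → A)
    (h : K.Lim f (fun j => (PA j : κ)) (fun i => (xA i : κ))) :
    K.Lim f (fun j => g (PA j)) (fun i => g (xA i)) := by
  intro H d e hH h0
  have h1 := h H d e hH h0
  obtain ⟨v, hv⟩ : ∃ v : Fin N ⊕ Fin r → A, v = Sum.elim PA xA := ⟨_, rfl⟩
  have e1 : (fun i => A.val (v i)) = Sum.elim (fun j => (PA j : κ)) (fun i => (xA i : κ)) := by
    rw [hv]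
    funext i
    rcases i with j | i
    · rfl
    · rfl
  have e2 : (fun i => g (v i)) = Sum.elim (fun j => g (PA j)) (fun i => g (xA i)) := by
    rw [hv]
    funext i
    rcases i with j | i
    · rfl
    · rfl
  have h2 : MvPolynomial.aeval v H = 0 := by
    have h3 := MvPolynomial.comp_aeval_apply v A.val H
    rw [e1, h1] at h3
    exact Subtype.ext h3
  have h3 := MvPolynomial.comp_aeval_apply v g H
  rw [h2, map_zero, e2] at h3
  exact h3.symm

/-- PROOF. A monomial of `H` with `K.BH H d e` is multiplied by `(∏ i, c i ^ d i) * l ^ e`; compare `Bk.fe_bsmul` (Q7/T5.lean). -/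
theorem lim_smul {n N s r : ℕ} (K : Bk n N s) {k κ : Type} [Field k] [Field κ] [Algebra k κ]
    (f : Fin r → MvPolynomial (Fin N) k) (P0 : Fin N → κ) (x : Fin r → κ) (h : K.Lim f P0 x)
    (c : Fin s → κ) (l : κ) : K.Lim f (fun j => c (K.bl j) * P0 j) (fun i => l * x i) := by
  intro H d e hH h0
  have h1 := h H d e hH h0
  have key : MvPolynomial.aeval (Sum.elim (fun j => c (K.bl j) * P0 j) (fun i => l * x i) :
      Fin N ⊕ Fin r → κ) H = ((∏ i, c i ^ d i) * l ^ e) *
        MvPolynomial.aeval (Sum.elim P0 x : Fin N ⊕ Fin r → κ) H := by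
    rw [MvPolynomial.aeval_def, MvPolynomial.aeval_def, MvPolynomial.eval₂_eq',
      MvPolynomial.eval₂_eq', Finset.mul_sum]
    refine Finset.sum_congr rfl fun u hu => ?_
    obtain ⟨h2, h3⟩ := hH u (MvPolynomial.mem_support_iff.1 hu)
    have h4 : ∏ j, c (K.bl j) ^ u (Sum.inl j) = ∏ i, c i ^ d i := by
      rw [← Finset.prod_fiberwise_of_maps_to (s := Finset.univ) (t := Finset.univ) (g := K.bl)
        (fun j _ => Finset.mem_univ _)]
      refine Finset.prod_congr rfl fun i _ => ?_
      rw [← h2 i, ← Finset.prod_pow_eq_pow_sum]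
      refine Finset.prod_congr rfl fun j hj => ?_
      rw [(Finset.mem_filter.1 hj).2]
    have h5 : ∏ i, l ^ u (Sum.inr i : Fin N ⊕ Fin r) = l ^ e := by
      rw [← h3, ← Finset.prod_pow_eq_pow_sum]
    rw [Fintype.prod_sum_type, Fintype.prod_sum_type]
    simp only [Sum.elim_inl, Sum.elim_inr, mul_pow, Finset.prod_mul_distrib]
    rw [h4, h5]
    ring
  rw [key, h1, mul_zero]

/-- PROOF. `K0.val` is injective. -/
theorem lim_down {n N s r : ℕ} (K : Bk n N s) {k0 L : Type} [Field k0] [Field L] [Algebra k0 L]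
    (f : Fin r → MvPolynomial (Fin N) k0) (K0 : IntermediateField k0 L) (b : Fin N → K0)
    (x : Fin r → K0) (h : K.Lim f (fun j => (b j : L)) (fun i => (x i : L))) : K.Lim f b x := by
  intro H d e hH h0
  have h1 := h H d e hH h0
  have e1 : (fun i => K0.val ((Sum.elim b x : Fin N ⊕ Fin r → K0) i)) =
      Sum.elim (fun j => (b j : L)) (fun i => (x i : L)) := by
    funext i
    rcases i with j | i
    · rfl
    · rfl
  have h3 := MvPolynomial.comp_aeval_apply (Sum.elim b x : Fin N ⊕ Fin r → K0) K0.val H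
  rw [e1, h1] at h3
  exact Subtype.ext h3

end MP2619.Q6
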