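import Pool.Agent.Lib.MP_2619d0_ag.L.Defs
import Pool.Agent.Lib.MP_2619d0_ag.Q6.T10

/-!
Row l-3b: a point of the closure of the graph at a place
-/

set_option autoImplicit false

namespace MP2619.Q6

universe u

open scoped NNReal
open IntermediateField MP2619.R MP2619.N Pool.Agent.Lib.MP_2619d0_ag Pool.Agent.Lib.MP_2619d0_ag.T
  MP2619.Q5

private theorem L3B_hom {n N s r : ℕ} (K : Bk n N s) {k M : Type} [Field k] [Field M] [Algebra k M]
    (H : MvPolynomial (Fin N ⊕ Fin r) k) {d : Fin s → ℕ} {e : ℕ} (hH : K.BH H d e) (a : Fin N → M)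
    (α : M) (b : Fin r → M) :
    MvPolynomial.aeval (Sum.elim a (fun i => α * b i) : Fin N ⊕ Fin r → M) H =
      α ^ e * MvPolynomial.aeval (Sum.elim a b : Fin N ⊕ Fin r → M) H := by
  rw [MvPolynomial.aeval_def, MvPolynomial.aeval_def, MvPolynomial.eval₂_eq', MvPolynomial.eval₂_eq',
    Finset.mul_sum]
  refine Finset.sum_congr rfl fun u hu => ?_
  have h1 := (hH u (MvPolynomial.mem_support_iff.1 hu)).2
  rw [Fintype.prod_sum_type, Fintype.prod_sum_type]
  have h2 : ∏ j : Fin r, (Sum.elim a (fun i => α * b i) : Fin N ⊕ Fin r → M) (Sum.inr j) ^ u (Sum.inr j) =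
      α ^ e * ∏ j : Fin r, (Sum.elim a b : Fin N ⊕ Fin r → M) (Sum.inr j) ^ u (Sum.inr j) := by
    rw [← h1, ← Finset.prod_pow_eq_pow_sum, ← Finset.prod_mul_distrib]
    refine Finset.prod_congr rfl fun j _ => ?_
    rw [Sum.elim_inr, Sum.elim_inr, mul_pow]
  rw [h2]
  have h3 : ∏ j : Fin N, (Sum.elim a (fun i => α * b i) : Fin N ⊕ Fin r → M) (Sum.inl j) ^ u (Sum.inl j) =
      ∏ j : Fin N, (Sum.elim a b : Fin N ⊕ Fin r → M) (Sum.inl j) ^ u (Sum.inl j) := rfl
  rw [h3]
  ring

/-- PROOF. `H (q; α f(q)) = α ^ e * H (q; f (q)) = 0` in `M` for `K.BH H d e` (`H (q; f (q))` is the value at `q` of `H (X; f (X)) = 0`). Both sides are polynomials over `k0` in the elements `q j`, `x i` of `P`;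
apply `φ` (see `castM`, `castN` in the proof of `translate`, Q6/T10.lean, or `MvPolynomial.hom_eval₂`). -/
theorem lim_place {n N s r : ℕ} (K : Bk n N s) {k0 M L : Type} [Field k0] [Field M] [Field L]
    [Algebra k0 M] [Algebra k0 L] {P : ValuationSubring M} {φ : P →+* L} (rm : RMap k0 P φ)
    (f : Fin r → MvPolynomial (Fin N) k0) (q : Fin N → P) (x : Fin r → P) (α : M)
    (hx : ∀ i, (x i : M) = α * fe f (fun j => (q j : M)) i) :
    K.Lim f (fun j => φ (q j)) (fun i => φ (x i)) := by
  intro H d e hH h0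
  let j0 : k0 →+* P := (algebraMap k0 M).codRestrict P rm.cst
  let y : Fin N ⊕ Fin r → P := Sum.elim q x
  have hM : ((MvPolynomial.eval₂ j0 y H : P) : M) =
      MvPolynomial.aeval (fun j => (y j : M)) H := MvPolynomial.hom_eval₂ H j0 P.subtype y
  have hL : φ (MvPolynomial.eval₂ j0 y H) = MvPolynomial.aeval (fun j => φ (y j)) H := by
    have h1 := MvPolynomial.hom_eval₂ H j0 φ y
    have e1 : φ.comp j0 = algebraMap k0 L := by
      ext c
      exact rm.alg c
    rw [e1] at h1
    exact h1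
  have e2 : (Sum.elim (fun j => φ (q j)) (fun i => φ (x i)) : Fin N ⊕ Fin r → L) =
      fun j => φ (y j) := by
    funext j
    rcases j with j | j <;> rfl
  have e3 : (fun j => (y j : M)) = Sum.elim (fun j => (q j : M))
      (fun i => α * MvPolynomial.aeval (fun j => (q j : M)) (f i)) := by
    funext j
    rcases j with j | j
    · rfl
    · exact hx j
  have h2 : MvPolynomial.aeval (fun j => (y j : M)) H = 0 := by
    rw [e3, L3B_hom K H hH]
    have h3 : MvPolynomial.aeval (Sum.elim (fun j => (q j : M))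
        (fun i => MvPolynomial.aeval (fun j => (q j : M)) (f i)) : Fin N ⊕ Fin r → M) H =
        MvPolynomial.aeval (fun j => (q j : M)) (MvPolynomial.aeval
          (Sum.elim MvPolynomial.X f : Fin N ⊕ Fin r → MvPolynomial (Fin N) k0) H) := by
      rw [MvPolynomial.comp_aeval_apply]
      congr 2
      funext j
      rcases j with j | j
      · simp
      · rfl
    rw [h3, h0, map_zero, mul_zero]
  have h4 : MvPolynomial.eval₂ j0 y H = 0 := by
    apply Subtype.ext
    rw [hM, h2]
    rfl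
  rw [e2, ← hL, h4, map_zero]

end MP2619.Q6
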