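import Pool.Agent.Lib.MP_2619d0_ag.L.Defs
import Pool.Agent.Lib.MP_2619d0_ag.Q5.G6
import Pool.Agent.Lib.MP_2619d0_ag.Q6.C6
import Pool.Agent.Lib.MP_2619d0_ag.Z.Z4

/-!
Row l-6b: the count for a closed set
-/

set_option autoImplicit false

namespace MP2619.Q6

universe u

open scoped NNReal
open IntermediateField MP2619.R MP2619.N Pool.Agent.Lib.MP_2619d0_ag Pool.Agent.Lib.MP_2619d0_ag.T
  MP2619.Q5

variable {k0 B L : Type} [Field k0] [Field B] [Field L] [Algebra k0 B] [Algebra B L]
  [Algebra k0 L] [IsScalarTower k0 B L]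

/-- A field generated by a set is algebraic over the algebra generated by the set. -/
private theorem L6B_alg {K N : Type} [Field K] [Field N] [Algebra K N] (S : Set N) :
    Algebra.IsAlgebraic (Algebra.adjoin K ((fun x : adjoin K S => (x : N)) ⁻¹' S)) (adjoin K S) := by
  have key : ∀ r ∈ Algebra.adjoin K S, ∃ r' ∈ Algebra.adjoin K
      ((fun x : adjoin K S => (x : N)) ⁻¹' S), (r' : N) = r := by
    intro r hr
    have h1 : (Algebra.adjoin K ((fun x : adjoin K S => (x : N)) ⁻¹' S)).map (adjoin K S).val =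
        Algebra.adjoin K S := by
      rw [AlgHom.map_adjoin]
      congr 1
      ext y
      constructor
      · rintro ⟨x, hx, rfl⟩
        exact hx
      · intro hy
        exact ⟨⟨y, subset_adjoin K S hy⟩, hy, rfl⟩
    rw [← h1] at hr
    obtain ⟨r', hr', h2⟩ := hr
    exact ⟨r', hr', h2⟩
  refine ⟨fun x => ?_⟩
  obtain ⟨r, hr, s, hs, hx⟩ := mem_adjoin_iff_div.1 x.2
  obtain ⟨r', hr', h1⟩ := key r hr
  obtain ⟨s', hs', h2⟩ := key s hs
  have h3 : x = r' * s'⁻¹ := by
    apply Subtype.ext
    push_cast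
    rw [hx, h1, h2, div_eq_mul_inv]
  rw [h3]
  have h4 : IsAlgebraic (Algebra.adjoin K ((fun x : adjoin K S => (x : N)) ⁻¹' S)) r' :=
    isAlgebraic_algebraMap (⟨r', hr'⟩ : Algebra.adjoin K ((fun x : adjoin K S => (x : N)) ⁻¹' S))
  have h5 : IsAlgebraic (Algebra.adjoin K ((fun x : adjoin K S => (x : N)) ⁻¹' S)) s' :=
    isAlgebraic_algebraMap (⟨s', hs'⟩ : Algebra.adjoin K ((fun x : adjoin K S => (x : N)) ⁻¹' S))
  exact h4.mul h5.inv

private theorem L6B_trdeg {K N : Type} [Field K] [Field N] [Algebra K N] {ι : Type} [Fintype ι]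
    (s : ι → N) : Algebra.trdeg K (adjoin K (Set.range s)) ≤ (Fintype.card ι : ℕ) := by
  have := L6B_alg (K := K) (Set.range s)
  refine (Algebra.IsAlgebraic.trdeg_le_cardinalMk (R := K) (A := adjoin K (Set.range s))
    ((fun x : adjoin K (Set.range s) => (x : N)) ⁻¹' (Set.range s))).trans ?_
  have h1 : Cardinal.mk ↑((fun x : adjoin K (Set.range s) => (x : N)) ⁻¹' (Set.range s)) ≤
      Cardinal.mk (Set.range s) :=
    Cardinal.mk_preimage_of_injective _ _ Subtype.val_injective
  refine h1.trans (Cardinal.mk_range_le.trans ?_)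
  rw [Cardinal.mk_fintype]

private theorem L6B_mono {k L : Type} [Field k] [Field L] [Algebra k L]
    {A B : IntermediateField k L} (h : A ≤ B) : Algebra.trdeg k A ≤ Algebra.trdeg k B :=
  _root_.trdeg_le_of_injective (IntermediateField.inclusion h)
    (IntermediateField.inclusion h).injective

private theorem L6B_hom {k N : Type} [Field k] [Field N] [Algebra k N] {r : ℕ}
    (F : MvPolynomial (Fin r) k) {d : ℕ} (hF : F.IsHomogeneous d) (c : N) (q : Fin r → N) :
    MvPolynomial.aeval (fun i => c * q i) F = c ^ d * MvPolynomial.aeval q F := by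
  rw [MvPolynomial.aeval_def, MvPolynomial.eval₂_eq', MvPolynomial.aeval_def,
    MvPolynomial.eval₂_eq', Finset.mul_sum]
  refine Finset.sum_congr rfl fun m hm => ?_
  have h1 : ∑ i, m i = d := by
    have h2 := hF.degree_eq_sum_deg_support hm
    rw [h2]
    rw [Finset.sum_subset (Finset.subset_univ m.support)]
    intro x _ hx
    exact Finsupp.notMem_support_iff.1 hx
  have h3 : ∏ i, (c * q i) ^ m i = c ^ d * ∏ i, q i ^ m i := by
    rw [← h1, ← Finset.prod_pow_eq_pow_sum, ← Finset.prod_mul_distrib]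
    exact Finset.prod_congr rfl fun i _ => mul_pow _ _ _
  rw [h3]
  ring

/-- The transcendence degree of a field generated by a family does not grow if the base is replaced by a larger field. -/
private theorem L6B_base {r : ℕ} (u : Fin r → L) :
    Algebra.trdeg B (adjoin B (Set.range u)) ≤ Algebra.trdeg k0 (adjoin k0 (Set.range u)) := by
  have halg := L6B_alg (K := B) (Set.range u)
  obtain ⟨t, hts, ht⟩ := exists_isTranscendenceBasis_subset (R := B) (A := adjoin B (Set.range u))
    ((fun x : adjoin B (Set.range u) => (x : L)) ⁻¹' (Set.range u))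
  have h1 : AlgebraicIndependent B (fun i : t => ((i : adjoin B (Set.range u)) : L)) :=
    ht.1.map' (f := (adjoin B (Set.range u)).val) Subtype.val_injective
  have h2 : AlgebraicIndependent k0 (fun i : t => ((i : adjoin B (Set.range u)) : L)) :=
    h1.restrictScalars (algebraMap k0 B).injective
  have hmem : ∀ i : t, ((i : adjoin B (Set.range u)) : L) ∈ adjoin k0 (Set.range u) := by
    intro i
    apply subset_adjoin
    exact hts i.2
  have h3 : AlgebraicIndependent k0 (fun i : t =>
      (⟨((i : adjoin B (Set.range u)) : L), hmem i⟩ : adjoin k0 (Set.range u))) :=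
    AlgebraicIndependent.of_comp (adjoin k0 (Set.range u)).val h2
  rw [← ht.cardinalMk_eq_trdeg]
  exact h3.cardinalMk_le_trdeg

/-- One radial direction. -/
private theorem L6B_rad {r E0 : ℕ} (u : Fin r → L) (j0 : Fin r) (hu : u j0 = 1)
    (h : ∀ (Ω : Type) [Field Ω] [Algebra L Ω] [Algebra k0 Ω] [IsScalarTower k0 L Ω] (c : Ω),
      Algebra.trdeg k0 (adjoin k0 (Set.range fun a => c * algebraMap L Ω (u a))) ≤ (E0 + 1 : ℕ)) :
    Algebra.trdeg k0 (adjoin k0 (Set.range u)) ≤ E0 := by
  have hfin := L6B_trdeg (K := k0) u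
  have hlt : Algebra.trdeg k0 (adjoin k0 (Set.range u)) < Cardinal.aleph0 :=
    lt_of_le_of_lt hfin (Cardinal.natCast_lt_aleph0)
  obtain ⟨z, hz⟩ := Cardinal.lt_aleph0.1 hlt
  let Ω : Type := FractionRing (MvPolynomial (Fin 1) L)
  let c : Fin 1 → Ω := fun i => algebraMap (MvPolynomial (Fin 1) L) Ω (MvPolynomial.X i)
  have hc : AlgebraicIndependent L c := by
    have h1 := (MvPolynomial.algebraicIndependent_X (Fin 1) L).map'
      (f := IsScalarTower.toAlgHom L (MvPolynomial (Fin 1) L) Ω)
      (IsFractionRing.injective (MvPolynomial (Fin 1) L) Ω)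
    exact h1
  have hc0 : c 0 ≠ 0 := by
    intro h0
    have h1 : algebraMap (MvPolynomial (Fin 1) L) Ω (MvPolynomial.X 0) = 0 := h0
    rw [← map_zero (algebraMap (MvPolynomial (Fin 1) L) Ω)] at h1
    exact MvPolynomial.X_ne_zero 0 (IsFractionRing.injective (MvPolynomial (Fin 1) L) Ω h1)
  obtain ⟨ι, v, hv⟩ := exists_isTranscendenceBasis' k0 (adjoin k0 (Set.range u))
  have h1 := hv.cardinalMk_eq_trdeg
  rw [hz] at h1
  have hvL : AlgebraicIndependent k0 (fun i => ((v i : adjoin k0 (Set.range u)) : L)) :=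
    hv.1.map' (f := (adjoin k0 (Set.range u)).val) Subtype.val_injective
  have hsum := hvL.sumElim_comp hc
  have hd := h Ω (c 0)
  set E := adjoin k0 (Set.range fun a => c 0 * algebraMap L Ω (u a)) with hE
  have hmem : ∀ a, c 0 * algebraMap L Ω (u a) ∈ E := fun a => subset_adjoin k0 _ ⟨a, rfl⟩
  have hcE : ∀ i, c i ∈ E := by
    intro i
    have h2 := hmem j0
    rw [hu, map_one, mul_one] at h2
    have h3 : i = 0 := Subsingleton.elim _ _
    rw [h3]
    exact h2
  have huE : ∀ a, algebraMap L Ω (u a) ∈ E := by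
    intro a
    have h2 : algebraMap L Ω (u a) = (c 0 * algebraMap L Ω (u a)) / c 0 := by
      rw [mul_div_cancel_left₀ _ hc0]
    rw [h2]
    exact E.div_mem (hmem a) (hcE 0)
  have hFE : ∀ x ∈ adjoin k0 (Set.range u), algebraMap L Ω x ∈ E := by
    intro x hx
    have h2 : adjoin k0 (Set.range u) ≤ E.comap (IsScalarTower.toAlgHom k0 L Ω) := by
      rw [adjoin_le_iff]
      rintro _ ⟨a, rfl⟩
      exact huE a
    exact h2 hx
  let w : Fin 1 ⊕ ι → E := Sum.elim (fun i => ⟨c i, hcE i⟩)
    (fun i => ⟨algebraMap L Ω ((v i : adjoin k0 (Set.range u)) : L), hFE _ (v i).2⟩)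
  have hw : AlgebraicIndependent k0 w := by
    refine AlgebraicIndependent.of_comp (E.val) ?_
    convert hsum using 1
    funext x
    rcases x with x | x <;> rfl
  have h5 := hw.cardinalMk_le_trdeg
  have h6 := h5.trans hd
  rw [Cardinal.mk_sum, Cardinal.lift_uzero, Cardinal.lift_uzero, h1, Cardinal.mk_fin] at h6
  have h7 : 1 + z ≤ E0 + 1 := by exact_mod_cast h6
  rw [hz]
  have h8 : z ≤ E0 := by omega
  exact_mod_cast h8

/-- The count for a closed set: if the point `x` lies on the cone `E = 0` of dimension at most `E0 + 1`, then the field of its ratios has transcendence degree at most `E0`. -/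
theorem count_ed {r t E0 : ℕ} (E : Fin t → MvPolynomial (Fin r) k0)
    (hE : ∀ i, ∃ e, (E i).IsHomogeneous e) (hEd : Ed E (E0 + 1)) (x : Fin r → L) (hx0 : x ≠ 0)
    (h : ∀ i, MvPolynomial.aeval x (E i) = 0) : Algebra.trdeg B (rat B x) ≤ E0 := by
  obtain ⟨j0, hj0⟩ := Function.ne_iff.1 hx0
  rw [Pi.zero_apply] at hj0
  have hrat : rat B x ≤ adjoin B (Set.range fun i => x i / x j0) := by
    conv_lhs => unfold rat
    rw [IntermediateField.adjoin_le_iff]
    rintro _ ⟨i, j, rfl⟩
    have h2 : x i / x j = (x i / x j0) / (x j / x j0) := by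
      rw [div_div_div_cancel_right₀ hj0]
    rw [h2]
    exact div_mem (subset_adjoin _ _ ⟨i, rfl⟩) (subset_adjoin _ _ ⟨j, rfl⟩)
  refine (L6B_mono hrat).trans ((L6B_base (k0 := k0) _).trans ?_)
  apply L6B_rad (fun i => x i / x j0) j0 (div_self hj0)
  intro Ω _ _ _ _ c
  apply hEd Ω (fun a => c * algebraMap L Ω (x a / x j0))
  intro i
  obtain ⟨e, he⟩ := hE i
  have h1 : (fun a => c * algebraMap L Ω (x a / x j0)) =
      fun a => (c * algebraMap L Ω (x j0)⁻¹) * algebraMap L Ω (x a) := by
    funext a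
    rw [div_eq_mul_inv, map_mul]
    ring
  have h2 : MvPolynomial.aeval (fun a => algebraMap L Ω (x a)) (E i) =
      algebraMap L Ω (MvPolynomial.aeval x (E i)) :=
    MvPolynomial.aeval_algebraMap_apply Ω x (E i)
  rw [h1, L6B_hom (E i) he, h2, h i, map_zero, mul_zero]

end MP2619.Q6
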