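import Pool.Agent.Lib.MP_2619d0_ag.Q5.Lex
import Pool.Agent.Lib.MP_2619d0_ag.Q6.C7a
import Pool.Agent.Lib.MP_2619d0_ag.Q6.C11b
import Pool.Agent.Lib.MP_2619d0_ag.Q6.C12
import Pool.Agent.Lib.MP_2619d0_ag.U.P8
import Pool.Agent.Lib.MP_2619d0_ag.Y.Y7
import Pool.Agent.Lib.MP_2619d0_ag.Y.Y8
import Pool.Agent.Lib.MP_2619d0_ag.Y.Y9
import Pool.Agent.Lib.MP_2619d0_ag.Z.Z6
import Pool.Agent.Lib.MP_2619d0_ag.L.L3A
import Pool.Agent.Lib.MP_2619d0_ag.L.L3B
import Pool.Agent.Lib.MP_2619d0_ag.L.L6A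
import Pool.Agent.Lib.MP_2619d0_ag.L.L6B

/-!
# One place over zero, the fibres of the graph
-/

set_option autoImplicit false

namespace MP2619.Q6

open scoped NNReal
open IntermediateField MP2619.R MP2619.N Pool.Agent.Lib.MP_2619d0_ag Pool.Agent.Lib.MP_2619d0_ag.T
  MP2619.Q5

section

variable {k0 B M L : Type} [Field k0] [Field B] [Field M] [Field L]
  [Algebra k0 B] [Algebra k0 M] [Algebra k0 L]
  [Algebra B M] [Algebra B L] [IsScalarTower k0 B M] [IsScalarTower k0 B L] {m n N s : ℕ}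
  {K : Bk n N s} {f : Fin (m + 2) → MvPolynomial (Fin N) k0} {G : Fin N → Fin N → B} {ε ε' : M}
  {S : Fin N → M} {α β : M} {σ : M ≃ₐ[B] M} {P : ValuationSubring M} {φ : P →+* L}
  {x y : Fin (m + 2) → P} {w : B} {a : Fin (m + 2)}

/-- a value of a polynomial over `k0` at fixed points is fixed -/
private theorem A10_fix (θ : L ≃ₐ[B] L) {n : ℕ} (p : Fin n → L) (hp : ∀ j, θ (p j) = p j)
    (g : MvPolynomial (Fin n) k0) : θ (MvPolynomial.aeval p g) = MvPolynomial.aeval p g := by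
  induction g using MvPolynomial.induction_on with
  | C c =>
    rw [MvPolynomial.aeval_C, IsScalarTower.algebraMap_apply k0 B L, AlgEquiv.commutes]
  | add p q hp hq => rw [map_add, map_add, hp, hq]
  | mul_X p i ih => rw [map_mul, MvPolynomial.aeval_X, map_mul, ih, hp]

/-- `esc8V` at one place -/
private theorem A10_one [CharZero L] (D : ℕ) (hm : m = D + 1)
    (E : K.Esc8 f G ε ε' S α β σ P φ x y w a)
    (F0 : MvPolynomial (Fin (m + 2)) k0) (h3 : F0.IsHomogeneous 3)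
    (h0 : MvPolynomial.aeval f F0 = 0) (J : Fin s → Fin N) (hJ : ∀ i, K.bl (J i) = i)
    (hJ0 : ∀ i, S (J i) ≠ 0) (hT : ∀ j, K.nm J S j ∈ P)
    (hne : fe f (pt (K.bd G) (fun j => φ ⟨_, hT j⟩)) = 0)
    (hmu : TayNe 1 f (pt (K.bd G) (fun j => φ ⟨_, hT j⟩))) :
    Out (MvPolynomial.map (algebraMap k0 B) F0) (fun i => φ (x i)) (fun i => φ (y i)) := by
  classical
  have rm0 : RMap k0 P φ := E.rm.restrict
  left
  obtain ⟨d, hd⟩ := E.hom
  obtain ⟨i0, hi0⟩ := Bk.exists_dv' _ hmu hne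
  obtain ⟨θ, hθx, hθy, hθθ, hθτ⟩ := esc_theta8 E J hT
  have hεP' : ε' ∈ P := (P.valuation_le_one_iff _).1 E.eps'.le
  have hφε' : φ ⟨ε', hεP'⟩ = 0 := (E.rm.zero _).2 E.eps'
  choose q hq1 hq2 using fun i => pt_res E.rm (K.bd G)
    (fun j => (1 + (⟨ε', hεP'⟩ : P)) ^ (K.wt j) * (⟨_, hT j⟩ : P)) i
  have hqφ : (fun j => φ (q j)) = pt (K.bd G) (fun j => φ ⟨_, hT j⟩) := by
    funext i
    rw [hq2 i]
    congr 1
    funext j
    rw [map_mul, map_pow, map_add, map_one, hφε', add_zero, one_pow, one_mul]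
  have hqM : (fun j => (q j : M)) = pt (K.bd G) (K.dg ε' (K.nm J S)) := funext hq1
  have hX : ∀ i, (x i : M) = α * (∏ l, S (J l) ^ d l) *
      fe f (fun j => (q j : M)) i := by
    intro i
    rw [E.x_eq, mul_assoc, hqM]
    unfold Bk.pS
    rw [K.fe_dg_nm f hd G J S hJ0 ε' i]
  have hα0 : α * (∏ l, S (J l) ^ d l) ≠ 0 :=
    mul_ne_zero E.a0 (Finset.prod_ne_zero_iff.2 fun l _ => pow_ne_zero _ (hJ0 l))
  have hx0 : ∃ i, φ (x i) ≠ 0 := by
    by_contra hcon
    push Not at hcon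
    have hy : ∀ i, φ (y i) = 0 := by
      intro i
      rw [← hθx, hcon, map_zero]
    have h1 := E.ind.ne_zero 0
    apply h1
    show algebraMap B L _ * φ (x 0) + φ (y 0) = 0
    rw [hcon, hy, mul_zero, add_zero]
  have hα : P.valuation (α * (∏ l, S (J l) ^ d l))⁻¹ < 1 := by
    obtain ⟨i, hi⟩ := hx0
    obtain ⟨b, hb1, hb2⟩ := fe_res f rm0 q i
    have hb3 : φ b = 0 := by
      rw [hb2, hqφ, hne]
      rfl
    have hb4 := (rm0.zero b).1 hb3
    have hxi : P.valuation (x i : M) = 1 :=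
      le_antisymm ((P.valuation_le_one_iff _).2 (x i).2) (not_lt.1 fun h => hi ((rm0.zero _).2 h))
    have hbe : (b : M) = (x i : M) * (α * (∏ l, S (J l) ^ d l))⁻¹ := by
      rw [hX i, hb1, mul_comm, ← mul_assoc, inv_mul_cancel₀ hα0, one_mul]
    rw [hbe, map_mul, hxi, one_mul] at hb4
    exact hb4
  have htr := translate rm0 f F0 h3 h0 q _ hα0 hα x hX i0
  rw [hqφ] at htr
  refine ⟨dv f i0 (pt (K.bd G) (fun j => φ ⟨_, hT j⟩)), θ, ?_⟩
  exact {
    x_y := hθx
    y_x := hθy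
    a_a := by
      intro i
      have h1 : ∀ j, θ (pt (K.bd G) (fun j => φ ⟨_, hT j⟩) j) =
          pt (K.bd G) (fun j => φ ⟨_, hT j⟩) j := by
        intro j
        unfold pt
        rw [map_sum]
        refine Finset.sum_congr rfl fun l _ => ?_
        rw [map_mul, hθτ l, AlgEquiv.commutes]
      exact A10_fix θ _ h1 _
    inv := hθθ
    ne := hi0
    line := by
      intro r s
      rw [MvPolynomial.aeval_map_algebraMap]
      exact htr r s
    tr1 := ⟨D, by omega, esc_tr1_8 D hm E J hJ hJ0 hT hne i0⟩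
    tr2 := ⟨m, le_rfl, esc_tr2_8 E J hJ hJ0 hT i0⟩ }

/-- an algebraic extension of the constants -/
private theorem A10_alg (K0 : IntermediateField k0 L) (h : Algebra.trdeg k0 K0 ≤ (0 : ℕ)) :
    Algebra.trdeg B (adjoin B (K0 : Set L)) ≤ (0 : ℕ) := by
  rw [Nat.cast_zero] at h ⊢
  have h1 : Algebra.IsAlgebraic k0 K0 := trdeg_eq_zero_iff.1 (le_antisymm h (Cardinal.zero_le _))
  have h2 : Algebra.IsAlgebraic B (adjoin B (K0 : Set L)) := by
    refine isAlgebraic_adjoin fun x hx => ?_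
    have h3 : IsAlgebraic k0 (⟨x, hx⟩ : K0) := Algebra.IsAlgebraic.isAlgebraic _
    have h4 : IsAlgebraic k0 x := h3.algebraMap
    exact (h4.tower_top B).isIntegral
  exact (trdeg_eq_zero (R := B) (A := adjoin B (K0 : Set L))).le

/-- the point in coordinates in the small field -/
private theorem A10_nb (K : Bk n N s) (K0 : IntermediateField k0 L) (P0 : Fin N → L)
    (hP0 : K.Nz P0) (hr : ∀ i j, K.bl i = K.bl j → P0 i / P0 j ∈ K0) :
    ∃ (c : Fin s → L) (b : Fin N → K0), (∀ i, c i ≠ 0) ∧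
      (∀ a, c (K.bl a) * P0 a = (b a : L)) ∧ K.Nz b := by
  choose l hbl hl0 using hP0
  have hmem : ∀ a, (P0 (l (K.bl a)))⁻¹ * P0 a ∈ K0 := by
    intro a
    rw [← div_eq_inv_mul]
    exact hr a _ (hbl _).symm
  refine ⟨fun i => (P0 (l i))⁻¹, fun a => ⟨_, hmem a⟩, fun i => inv_ne_zero (hl0 i),
    fun a => rfl, fun i => ⟨l i, hbl i, fun h3 => ?_⟩⟩
  have h4 := congrArg Subtype.val h3
  change (P0 (l (K.bl (l i))))⁻¹ * P0 (l i) = 0 at h4
  rw [hbl, inv_mul_cancel₀ (hl0 i)] at h4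
  exact one_ne_zero h4

/-- the closure -/
private theorem A10_sp (K : Bk n N s) {Q : Type} [Field Q] [Algebra k0 Q] (p : Fin N → Q)
    (K0 : IntermediateField k0 L) (P0 : Fin N → L) (hsp : K.Sp k0 p P0) (c : Fin s → L)
    (b : Fin N → K0) (hb : ∀ a, c (K.bl a) * P0 a = (b a : L)) : K.Sp k0 p b := by
  intro g d hg h0
  have h1 := hsp g d hg h0
  have h2 := K.fe_bsmul (fun _ : Fin 1 => g) (fun _ => hg) c P0 0
  have h3 : fe (fun _ : Fin 1 => g) P0 0 = 0 := h1
  rw [h3, mul_zero] at h2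
  have h4 : (fun j => c (K.bl j) * P0 j) = fun j => K0.val (b j) := funext hb
  rw [h4] at h2
  have h5 := MvPolynomial.comp_aeval_apply (R := k0) b K0.val g
  have h6 : ((MvPolynomial.aeval b g : K0) : L) = 0 := h5.trans h2
  exact Subtype.ext h6

/-- a place over zero -/
theorem esc8L [CharZero k0] (D : ℕ) (hm : m = D + 1) (e : ℕ)
    (E : K.Esc8 f G ε ε' S α β σ P φ x y w a)
    (hmu : K.Mult2L e f (pt (K.bd G) S)) (F0 : MvPolynomial (Fin (m + 2)) k0)
    (h3 : F0.IsHomogeneous 3) (h0 : MvPolynomial.aeval f F0 = 0) :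
    (∀ b ∈ adjoin B (Set.range S ∪ {α, β}), b ∈ P) ∨
      Out (MvPolynomial.map (algebraMap k0 B) F0) (fun i => φ (x i)) (fun i => φ (y i)) ∨
      Algebra.trdeg B (rat B (fun i => φ (x i))) ≤ e := by
  classical
  have rm0 : RMap k0 P φ := E.rm.restrict
  have cB : CharZero B := charZero_of_injective_algebraMap (algebraMap k0 B).injective
  have cL : CharZero L := charZero_of_injective_algebraMap (algebraMap B L).injective
  obtain ⟨J, hJ, hJ0, hT⟩ := K.exists_nm P S E.nz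
  by_cases hne : fe f (pt (K.bd G) (fun j => φ ⟨_, hT j⟩)) ≠ 0
  · exact Or.inl (esc_main8 D hm E J hJ hJ0 hT hne)
  right
  rw [not_not] at hne
  have hτ0 : K.Nz (fun j => φ ⟨_, hT j⟩ : Fin N → L) := by
    intro i
    refine ⟨J i, hJ i, ?_⟩
    have h2 : (⟨K.nm J S (J i), hT (J i)⟩ : P) = 1 :=
      Subtype.ext (K.nm_J J hJ S hJ0 i)
    show φ ⟨K.nm J S (J i), hT (J i)⟩ ≠ 0
    rw [h2, map_one]
    exact one_ne_zero
  have hP0 : K.Nz (pt (K.bd G) (fun j => φ ⟨_, hT j⟩)) := pt_neB K G E.indG _ hτ0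
  by_cases hT1 : TayNe 1 f (pt (K.bd G) (fun j => φ ⟨_, hT j⟩))
  · exact Or.inl (A10_one D hm E F0 h3 h0 J hJ hJ0 hT hne hT1)
  by_cases hlow : K.Low2 f G (fun j => φ ⟨_, hT j⟩)
  · exact Or.inl (esc8_out D hm E F0 h3 h0 J hJ0 hT hne hlow)
  right
  obtain ⟨d, hd⟩ := E.hom
  obtain ⟨K0, hK0, hr, hx⟩ := esc_cnt E J hJ hJ0 hT hne (n - 1) (by omega)
  have h6 : rat B (fun i => φ (x i)) ≤ adjoin B (K0 : Set L) :=
    (rat_base (k0 := k0) fun i => φ (x i)).trans (adjoin.mono B _ _ hx)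
  have h7 : ∀ δ : ℕ, δ ≤ e → Algebra.trdeg B (adjoin B (K0 : Set L)) ≤ δ →
      Algebra.trdeg B (rat B (fun i => φ (x i))) ≤ e := by
    intro δ h1 h2
    have h5 : (δ : Cardinal) ≤ (e : Cardinal) := by exact_mod_cast h1
    exact ((trdeg_le_of_injective (IntermediateField.inclusion h6)
      (IntermediateField.inclusion_injective h6)).trans h2).trans h5
  by_cases hn : n = 0
  · exact h7 0 (Nat.zero_le _) (A10_alg K0 (by rw [hn] at hK0; exact hK0))
  obtain ⟨c, b, hc, hb, hbn⟩ := A10_nb K K0 _ hP0 hr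
  have hsp := A10_sp K _ K0 _ (K.sp_res E.rm G S J hJ0 hT) c b hb
  -- the two points
  have hPb : (fun a => algebraMap K0 L (b a)) =
      fun a => c (K.bl a) * pt (K.bd G) (fun j => φ ⟨_, hT j⟩) a := funext fun a => (hb a).symm
  have hback : ∀ t : ℕ, TayNe t f b → TayNe t f (pt (K.bd G) (fun j => φ ⟨_, hT j⟩)) := by
    intro t h1
    have h2 := (tayNe_map (κ' := L) f b).2 h1
    rw [hPb] at h2
    have h4 := tayNe_smul K f hd _ (fun i => (c i)⁻¹) (fun i => inv_ne_zero (hc i)) h2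
    have h5 : (fun j => (c (K.bl j))⁻¹ * (c (K.bl j) * pt (K.bd G) (fun j => φ ⟨_, hT j⟩) j)) =
        pt (K.bd G) (fun j => φ ⟨_, hT j⟩) := by
      funext j
      rw [inv_mul_cancel_left₀ (hc _)]
    rw [h5] at h4
    exact h4
  have hb1 : ¬ TayNe 1 f b := fun h1 => hT1 (hback 1 h1)
  obtain ⟨t, Ef, hEh, hEd, hmu⟩ := hmu
  -- the points near `τ`
  have hεP : ε ∈ P := (P.valuation_le_one_iff _).1 E.eps.le
  have hεP' : ε' ∈ P := (P.valuation_le_one_iff _).1 E.eps'.le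
  have hφε : φ ⟨ε, hεP⟩ = 0 := (E.rm.zero _).2 E.eps
  have hφε' : φ ⟨ε', hεP'⟩ = 0 := (E.rm.zero _).2 E.eps'
  have hpt : ∀ (h : P), φ h = 0 → ∃ q : Fin N → P,
      (fun j => (q j : M)) = pt (K.bd G) (K.dg (h : M) (K.nm J S)) ∧
      (fun j => φ (q j)) = pt (K.bd G) (fun j => φ ⟨_, hT j⟩) := by
    intro h hh
    choose q hq1 hq2 using fun i => pt_res E.rm (K.bd G)
      (fun j => (1 + h) ^ (K.wt j) * (⟨_, hT j⟩ : P)) i
    refine ⟨q, funext hq1, ?_⟩
    funext i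
    rw [hq2 i]
    congr 1
    funext j
    rw [map_mul, map_pow, map_add, map_one, hh, add_zero, one_pow, one_mul]
  have hlim : ∀ (h : P) (_ : φ h = 0) (γ : M) (z : Fin (m + 2) → P),
      (∀ i, (z i : M) = γ * fe f (K.pS G S (h : M)) i) → ∀ l : L,
      K.Lim f (fun j => (b j : L)) (fun i => l * φ (z i)) := by
    intro h hh γ z hz l
    obtain ⟨q, hq1, hq2⟩ := hpt h hh
    have h1 : K.Lim f (fun j => φ (q j)) (fun i => φ (z i)) := by
      refine lim_place K rm0 f q z (γ * ∏ l, S (J l) ^ d l) fun i => ?_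
      rw [hz i, mul_assoc, hq1]
      unfold Bk.pS
      rw [K.fe_dg_nm f hd G J S hJ0 (h : M) i]
    have h2 := lim_smul K f _ _ h1 c l
    have h3 : (fun j => c (K.bl j) * φ (q j)) = fun j => (b j : L) := by
      funext j
      have h4 := congrFun hq2 j
      change φ (q j) = _ at h4
      rw [h4]
      exact hb j
    rw [h3] at h2
    exact h2
  rcases (hmu K0 b hbn hsp).resolve_left hb1 with ⟨hb2, hZ | ⟨b0, c0, hb0, hbc⟩⟩ |
    ⟨D1, a1, hDa, hZ, hF⟩ | hE
  · have hl' : ¬ K.Low2 f G (fun j => c (K.bl j) * φ ⟨_, hT j⟩) := fun h1 =>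
      hlow (low2_smul K f hd G _ c hc h1)
    have hpt : ∀ a, pt (K.bd G) (fun j => c (K.bl j) * φ ⟨_, hT j⟩) a = (b a : L) := by
      intro a
      rw [K.pt_bsmul G c (fun j => φ ⟨_, hT j⟩)]
      exact hb a
    obtain ⟨δ, hδ1, hδ2⟩ := low_countz0 K f hd G E.indG _ K0 (n - 1) (e + 1 + s) hK0 b hpt hbn hb1
      hZ hl'
    have hN := K.card
    exact h7 δ (by omega) hδ1
  · exfalso
    have hT2 := hback 2 hb2
    have hbc' : ∀ j, pt (K.bd G) (fun j => φ ⟨_, hT j⟩) j =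
        (c (K.bl j))⁻¹ * (c0 (K.bl j) : L) * algebraMap k0 L (b0 j) := by
      intro j
      have h1 := congrArg (fun z : K0 => (z : L)) (hbc j)
      change (b j : L) = (c0 (K.bl j) : L) * algebraMap k0 L (b0 j) at h1
      rw [mul_assoc, ← h1, ← hb j, inv_mul_cancel_left₀ (hc _)]
    have hc1 : ∀ i, (c i)⁻¹ * (c0 i : L) ≠ 0 := by
      intro i hi
      obtain ⟨j, hj, hj0⟩ := hP0 i
      apply hj0
      rw [hbc' j, hj, hi, zero_mul]
    have h7' : Algebra.trdeg k0 (⊥ : IntermediateField k0 L) ≤ (0 : ℕ) := by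
      have h8 : Algebra.IsAlgebraic k0 (⊥ : IntermediateField k0 L) :=
        Algebra.IsAlgebraic.of_finite k0 _
      rw [Nat.cast_zero]
      exact (_root_.trdeg_eq_zero (R := k0) (A := (⊥ : IntermediateField k0 L))).le
    obtain ⟨δ, hδ1, hδ2⟩ := low_count K f hd G E.indG _ hτ0 ⊥ 0 h7' (by
      intro i j hij
      rw [hbc' i, hbc' j, hij, mul_div_mul_left _ _ (hc1 _), ← map_div₀]
      exact IntermediateField.algebraMap_mem _ _) hT1 hT2 hlow
    omega
  · -- the fibre is small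
    exfalso
    have hl' : ¬ K.Low2 f G (fun j => c (K.bl j) * φ ⟨_, hT j⟩) := fun h1 =>
      hlow (low2_smul K f hd G _ c hc h1)
    have hpt : ∀ a, pt (K.bd G) (fun j => c (K.bl j) * φ ⟨_, hT j⟩) a = (b a : L) := by
      intro a
      rw [K.pt_bsmul G c (fun j => φ ⟨_, hT j⟩)]
      exact hb a
    obtain ⟨δ, hδ1, hδ2⟩ := low_countz0 K f hd G E.indG _ K0 (n - 1) D1 hK0 b hpt hbn hb1
      hZ hl'
    have hN := K.card
    have hy := hlim ⟨ε, hεP⟩ hφε β y E.y_eq 1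
    simp only [one_mul] at hy
    exact count_fz K f K0 b δ a1 hδ1 hF _ _ hx hy w (Pi.single a 1) (by omega) E.ind
  · -- the closed set
    obtain ⟨j0, hj0⟩ : ∃ i, φ (x i) ≠ 0 := by
      by_contra hcon
      push Not at hcon
      obtain ⟨θ, hθx, -, -, -⟩ := esc_theta8 E J hT
      have hy : ∀ i, φ (y i) = 0 := fun i => by rw [← hθx, hcon, map_zero]
      apply E.ind.ne_zero 0
      show algebraMap B L _ * φ (x 0) + φ (y 0) = 0
      rw [hcon, hy, mul_zero, add_zero]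
    have hmem : ∀ i, (φ (x j0))⁻¹ * φ (x i) ∈ K0 := by
      intro i
      apply hx
      rw [← div_eq_inv_mul]
      exact subset_adjoin _ _ ⟨i, j0, rfl⟩
    have hxL := hlim ⟨ε', hεP'⟩ hφε' α x E.x_eq (φ (x j0))⁻¹
    have h1 := hE (fun i => ⟨_, hmem i⟩) (fun h0 => by
      have h2 := congrArg (fun v => ((v j0 : K0) : L)) h0
      change (φ (x j0))⁻¹ * φ (x j0) = 0 at h2
      rw [inv_mul_cancel₀ hj0] at h2
      exact one_ne_zero h2) (lim_down K f K0 b _ hxL)
    have h2 : ∀ i, MvPolynomial.aeval (fun i => (φ (x j0))⁻¹ * φ (x i)) (Ef i) = 0 := by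
      intro i
      have h3 := MvPolynomial.comp_aeval_apply (R := k0) (fun i => (⟨_, hmem i⟩ : K0)) K0.val (Ef i)
      rw [h1 i, map_zero] at h3
      exact h3.symm
    have h3 := count_ed (B := B) Ef hEh hEd (fun i => (φ (x j0))⁻¹ * φ (x i)) (fun h0 => by
      have h4 := congrFun h0 j0
      change (φ (x j0))⁻¹ * φ (x j0) = 0 at h4
      rw [inv_mul_cancel₀ hj0] at h4
      exact one_ne_zero h4) h2
    have h4 : rat B (fun i => φ (x i)) ≤ rat B (fun i => (φ (x j0))⁻¹ * φ (x i)) := by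
      have h5 := rat_smul_le (k := B) (φ (x j0)) (fun i => (φ (x j0))⁻¹ * φ (x i))
      have h6 : (fun i => φ (x j0) * ((φ (x j0))⁻¹ * φ (x i))) = fun i => φ (x i) := by
        funext i
        rw [mul_inv_cancel_left₀ hj0]
      rw [h6] at h5
      exact h5
    exact (trdeg_le_of_injective (IntermediateField.inclusion h4)
      (IntermediateField.inclusion_injective h4)).trans h3

end

variable {m n N s : ℕ} {F : MvPolynomial (Fin (m + 2)) ℂ} {J : Type} {z : Exp3 (m + 2) ⊕ J → ℂ}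
  {A : Type} [Field A] [CharZero A] [Algebra ℂ A] {u l : Fin (m + 2) → A}
  {v2 : Valuation ℚ ℝ≥0} {V : Valuation A ℝ≥0}

variable {k0 B M : Type} [Field k0] [Field B] [Field M] [Algebra k0 B]
  [Algebra k0 M] [Algebra B M] [IsScalarTower k0 B M]

/-- `path_esc8V` with double base points -/
theorem path_esc8L (K : Bk n N s) (hR : RE (m + 2)) (hm3 : 3 ≤ m) (E0 : ℕ) (hE : m = 2 * E0)
    (S : St F z u l v2 V)
    (k1 : IntermediateField (Qz z) ℂ)
    (hk1 : FiniteDimensional (Qz z) k1) (w : k1)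
    [Algebra B k1] [Algebra B A] [Algebra k1 M] [IsScalarTower B k1 M] [IsScalarTower B k1 A]
    [CharZero k0]
    (e : k1) (j : J) (hB : BE z k1 B e j) (hB' : BE z k1 B e⁻¹ j) (wB : B)
    (hw : algebraMap B k1 wB = w)
    (f : Fin (m + 2) → MvPolynomial (Fin N) k0) (hd : ∃ d, ∀ i, K.MH (f i) d)
    (F0 : MvPolynomial (Fin (m + 2)) k0) (h3 : F0.IsHomogeneous 3)
    (h0 : MvPolynomial.aeval f F0 = 0)
    (hF0 : MvPolynomial.map ((algebraMap k1 ℂ).comp (algebraMap B k1))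
      (MvPolynomial.map (algebraMap k0 B) F0) = F)
    (G : Fin N → Fin N → B)
    (hG : AlgebraicIndependent k0 (fun q : Fin N × Fin N => G q.1 q.2))
    (T : Fin N → M) (hT : K.Nz T) (htr : Algebra.trdeg B (adjoin B (Set.range T)) ≤ m)
    (hmu : K.Mult2L E0 f (pt (K.bd G) T)) (α β : M) (hα : α ≠ 0) (hβ : β ≠ 0) (h : M)
    (hh : (1 + h) * (1 + algebraMap k1 M e) = 1)
    (hf0 : fe f (pt (K.bd G) T) ≠ 0) (x y : Fin (m + 2) → M)
    (hx : ∀ i, x i = α * fe f (K.pS G T h) i)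
    (hy : ∀ i, y i = β * fe f (K.pS G T (algebraMap k1 M e)) i) (hD : Dat F z k1 w x y)
    (σ : M ≃ₐ[B] M) (h1 : σ (algebraMap k1 M e) = h) (h2 : ∀ l, σ (T l) = T l) (h4 : σ α = β)
    (h5 : σ β = α) (h6 : ∀ z, σ (σ z) = z) (a : Fin (m + 2)) (P : ValuationSubring M)
    (hP : EP B (algebraMap k1 M e) x y P) (hs : ∀ z : M, σ z ∈ P ↔ z ∈ P)
    (hne : ¬ ∀ b ∈ adjoin B (Set.range T ∪ {α, β}), b ∈ P) :
    Even (gr V wB u x y P (Pi.single a 1)) := by
  by_contra hodd
  have hne0 : gr V wB u x y P (Pi.single a 1) ≠ 0 := by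
    intro h0
    exact hodd (by rw [h0]; exact Even.zero)
  obtain ⟨N', iN, aBN, φ, hφ⟩ := exists_RMap P hP.cst
  obtain ⟨hind, hfin, -⟩ := gr_data S k1 w x y hD e j hB wB hw P hP φ hφ (Pi.single a 1) hne0
  let ak0N : Algebra k0 N' := ((algebraMap B N').comp (algebraMap k0 B)).toAlgebra
  have t2 : IsScalarTower k0 B N' := IsScalarTower.of_algebraMap_eq fun _ => rfl
  have cB : CharZero B := (algebraMap B k1).charZero
  have cN : CharZero N' := charZero_of_injective_algebraMap (algebraMap B N').injective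
  have he0 : algebraMap k1 M e ≠ 0 := by
    intro h0
    have h0' : e = 0 := (map_eq_zero _).1 h0
    have h6 := BE_trans S k1 e j hB
    rw [h0', map_zero] at h6
    exact h6 isAlgebraic_zero
  have hε' : P.valuation h < 1 := by
    have hpos : P.valuation (algebraMap k1 M e) < 1 := hP.pos
    have e1 : P.valuation (1 + algebraMap k1 M e) = 1 := by
      have h9 : P.valuation (algebraMap k1 M e) < P.valuation (1 : M) := by rwa [map_one]
      rw [Valuation.map_add_eq_of_lt_left _ h9, map_one]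
    have e2 : h * (1 + algebraMap k1 M e) = - algebraMap k1 M e := by
      have : h * (1 + algebraMap k1 M e) = (1 + h) * (1 + algebraMap k1 M e) -
        (1 + algebraMap k1 M e) := by ring
      rw [this, hh]
      ring
    have e3 := congrArg P.valuation e2
    rw [map_mul, e1, mul_one, Valuation.map_neg] at e3
    rw [e3]
    exact hpos
  have E : K.Esc8 f G (algebraMap k1 M e) h T α β σ P φ (fun i => ⟨x i, hP.x_mem i⟩)
      (fun i => ⟨y i, hP.y_mem i⟩) wB a :=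
    { hom := hd
      indG := hG
      rm := hφ
      dv := hP.dv
      e0 := he0
      ee := by rw [mul_comm]; exact hh
      a0 := hα
      b0 := hβ
      nz := hT
      x0 := hf0
      x_eq := hx
      y_eq := hy
      s_e := h1
      s_S := h2
      s_a := h4
      s_b := h5
      s_s := h6
      eps := hP.pos
      eps' := hε'
      sig := hs
      tr := htr
      ind := hind }
  rcases esc8L (m - 1) (by omega) E0 E hmu F0 h3 h0 with h7 | h7 | h7
  · exact hne h7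
  · apply hodd
    rw [gr_eq V wB u x y P φ hφ hP.x_mem hP.y_mem]
    exact Out.even (by omega) S k1 hk1 w hD.om e j hB hB' wB hw
      (MvPolynomial.map (algebraMap k0 B) F0) hF0 a h7 ⟨_, hind, hfin⟩
  · exact hodd (gr_even_x hR (by omega) E0 (by omega) S k1 w x y hD e j hB wB hw P hP φ hφ h7 a)

end MP2619.Q6
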