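import Pool.Agent.Lib.MP_2619d0_ag.Q5.G1
import Pool.Agent.Lib.MP_2619d0_ag.Q5.M6a
import Pool.Agent.Lib.MP_2619d0_ag.Q6.M6b
import Pool.Agent.Lib.MP_2619d0_ag.Q8.M6
import Pool.Agent.Lib.MP_2619d0_ag.L.A10

/-!
The torus path at zero, double base points
-/

set_option autoImplicit false

namespace MP2619.Q6

open scoped NNReal
open IntermediateField MP2619.R MP2619.N Pool.Agent.Lib.MP_2619d0_ag Pool.Agent.Lib.MP_2619d0_ag.T
  MP2619.Q5

private theorem A11_val {M N : Type} [Field M] [Field N] {k : Type} [Field k] [Algebra k M]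
    [Algebra k N] {P : ValuationSubring M} {φ : P →+* N} (rm : RMap k P φ) (a : P) (h : φ a ≠ 0) :
    P.valuation (a : M) = 1 :=
  le_antisymm ((P.valuation_le_one_iff _).2 a.2) (not_lt.1 fun h2 => h ((rm.zero a).2 h2))

private theorem A11_pt {C M N : Type} [Field C] [Field M] [Field N] [Algebra C M] [Algebra C N]
    {s : ℕ} (G : Fin s → Fin s → C) (T : Fin s → M) (g : M →ₐ[C] N) (i : Fin s) :
    g (pt G T i) = pt G (fun j => g (T j)) i := by
  unfold pt
  rw [map_sum]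
  refine Finset.sum_congr rfl fun j _ => ?_
  rw [map_mul, g.commutes]

private theorem A11_fe {k M N : Type} [Field k] [Field M] [Field N] [Algebra k M] [Algebra k N]
    {n s : ℕ} (f : Fin n → MvPolynomial (Fin s) k) (g : M →ₐ[k] N) (p : Fin s → M) (i : Fin n) :
    g (fe f p i) = fe f (fun j => g (p j)) i := by
  unfold fe
  rw [← AlgHom.comp_apply, MvPolynomial.comp_aeval]

private theorem A11_one {M : Type} [Field M] (P : ValuationSubring M) (ε : M)
    (h : P.valuation ε < 1) : P.valuation (1 + ε) = 1 := by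
  have h1 : P.valuation ε < P.valuation (1 : M) := by rwa [map_one]
  rw [Valuation.map_add_eq_of_lt_left _ h1, map_one]

private theorem A11_sig {M : Type} [Field M] (P : ValuationSubring M) (ε η : M)
    (h : P.valuation ε < 1) (h1 : η * (1 + ε) = - ε) : P.valuation η = P.valuation ε := by
  have h2 := congrArg P.valuation h1
  rwa [map_mul, A11_one P ε h, mul_one, Valuation.map_neg] at h2

private theorem A11_ord {M : Type} [Field M] (P : ValuationSubring M) (hP : DV P) (ε η : M)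
    (h : P.valuation ε < 1) (h1 : η * (1 + ε) = - ε) : ord P η = ord P ε := by
  have h3 := A11_one P ε h
  have h4 : (1 : M) + ε ≠ 0 := by
    intro h5
    rw [h5, map_zero] at h3
    exact zero_ne_one h3
  by_cases h0 : ε = 0
  · have h5 : η = 0 := by
      rw [h0, neg_zero, add_zero, mul_one] at h1
      exact h1
    rw [h5, h0]
  · have h5 : η ≠ 0 := by
      intro h6
      rw [h6, zero_mul] at h1
      exact h0 (neg_eq_zero.1 h1.symm)
    have h6 : ord P (η * (1 + ε)) = ord P ε := by rw [h1, ord_neg]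
    rw [ord_mul hP h5 h4, (unit_iff hP h4).1 h3, add_zero] at h6
    exact h6

variable {m n N s : ℕ} {F : MvPolynomial (Fin (m + 2)) ℂ} {J : Type} {z : Exp3 (m + 2) ⊕ J → ℂ}
  {A : Type} [Field A] [CharZero A] [Algebra ℂ A] {u l : Fin (m + 2) → A}
  {v2 : Valuation ℚ ℝ≥0} {V : Valuation A ℝ≥0}

variable {k0 B M : Type} [Field k0] [Field B] [Field M] [Algebra k0 B]
  [Algebra k0 M] [Algebra B M] [IsScalarTower k0 B M]

/-- Compare `path_zero` (Q6/M7.lean). `σ` = `exists_sigma` (Q6/M6b) with `m = 0` over the base `Q` (`g3` is the family there), restricted to `B`: it fixes the `T j`, `σ e = h` because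
`σ e (1 + e) = - e = h (1 + e)`. `E = adjoin Q {α, β}`, `facts8`, `place0` (Q5/M6a) over `Q`: `P0`, `φ : P0 → E`; `RMap.restrict` (Q5/G1) to `B`. `x`, `y` are in `P0` (polynomials
in `h`, `e` over `E`), their residues are `α f(p)`, `β f(p)`, `p = pt (K.bd G) T`: `gr_eq` and `hodd`. `σ P0 = P0`: the preimage contains `E` (`σ E = E`) and `v(σ e) < 1` (uniqueness in
`place0`). `lex`, `lex_pairs` (C12, `Z = {P0}`) with `path_esc8` (`htr` from `trdeg_img8`); a place containing `B(T, α, β)` contains `E` (`adj8`), so it is `P0`. -/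
theorem path_zero8L (K : Bk n N s) (hR : RE (m + 2)) (hm3 : 3 ≤ m) (E0 : ℕ) (hmE : m = 2 * E0)
    [CharZero k0] (S : St F z u l v2 V)
    (k1 : IntermediateField (Qz z) ℂ)
    (hk1 : FiniteDimensional (Qz z) k1) (w : k1)
    [Algebra B k1] [Algebra B A] [Algebra k1 M] [IsScalarTower B k1 M] [IsScalarTower B k1 A]
    (e : k1) (j : J) (hB : BE z k1 B e j) (hB' : BE z k1 B e⁻¹ j) (wB : B)
    (hw : algebraMap B k1 wB = w)
    (f : Fin (m + 2) → MvPolynomial (Fin N) k0) (hd : ∃ d, ∀ i, K.MH (f i) d)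
    (F0 : MvPolynomial (Fin (m + 2)) k0) (h3 : F0.IsHomogeneous 3)
    (h0 : MvPolynomial.aeval f F0 = 0)
    (hF0 : MvPolynomial.map ((algebraMap k1 ℂ).comp (algebraMap B k1))
      (MvPolynomial.map (algebraMap k0 B) F0) = F)
    (G : Fin N → Fin N → B)
    (hG : AlgebraicIndependent k0 (fun q : Fin N × Fin N => G q.1 q.2))
    {Q : Type} [Field Q] [Algebra B Q] [Algebra Q M] [IsScalarTower B Q M]
    (T : Fin N → Q) (hT : K.Nz T) (hgQ : adjoin B (Set.range T) = ⊤)
    (htr : Algebra.trdeg B Q ≤ m)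
    (hmu : K.Mult2L E0 f (pt (K.bd G) (fun j => algebraMap Q M (T j)))) (α β : M)
    (hind : AlgebraicIndependent Q (g3 (algebraMap k1 M e) α β))
    (hgen : adjoin Q (Set.range (g3 (algebraMap k1 M e) α β)) = ⊤)
    (h : M) (hh : (1 + h) * (1 + algebraMap k1 M e) = 1)
    (hf0 : fe f (pt (K.bd G) (fun j => algebraMap Q M (T j))) ≠ 0) (x y : Fin (m + 2) → M)
    (hx : ∀ i, x i = α * fe f (K.pS G (fun j => algebraMap Q M (T j)) h) i)
    (hy : ∀ i, y i = β * fe f (K.pS G (fun j => algebraMap Q M (T j)) (algebraMap k1 M e)) i)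
    (hD : Dat F z k1 w x y) (a : Fin (m + 2))
    (hodd : ∀ x0 y0 : Fin (m + 2) → adjoin Q ({α, β} : Set M),
      (∀ i, (x0 i : M) = α * fe f (pt (K.bd G) (fun j => algebraMap Q M (T j))) i) →
      (∀ i, (y0 i : M) = β * fe f (pt (K.bd G) (fun j => algebraMap Q M (T j))) i) →
      Odd (gc V wB u x0 y0 (Pi.single a 1))) :
    Odd (gc V w u x y (Pi.single a 1)) := by
  classical
  set ε : M := algebraMap k1 M e with hε
  obtain ⟨he3, hg3, -⟩ := facts8 ε α β hind hgen
  obtain ⟨σ, s1, -, s4, s5, s6⟩ := exists_sigma (m := 0) ε Fin.elim0 α β hind hgen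
  have h1ε : (1 : M) + ε ≠ 0 := fun h0 => by
    rw [h0, mul_zero] at hh
    exact zero_ne_one hh
  have hhε : h * (1 + ε) = - ε := by linear_combination hh
  have hσε : σ ε = h := mul_right_cancel₀ h1ε (s1.trans hhε.symm)
  have hσh : σ h = ε := by rw [← hσε, s6]
  obtain ⟨P0, φ, rm, dv, ho, hlt, hE, huniq⟩ := place0 (adjoin Q ({α, β} : Set M)) ε he3 hg3
  have rmB : RMap B P0 φ := rm.restrict
  letI : Algebra k0 (adjoin Q ({α, β} : Set M)) :=
    ((algebraMap B (adjoin Q ({α, β} : Set M))).comp (algebraMap k0 B)).toAlgebra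
  haveI : IsScalarTower k0 B (adjoin Q ({α, β} : Set M)) := .of_algebraMap_eq fun _ => rfl
  have rm0 : RMap k0 P0 φ := rmB.restrict
  let vB : adjoin Q ({α, β} : Set M) →ₐ[B] M := (adjoin Q ({α, β} : Set M)).val.restrictScalars B
  let v0 : adjoin Q ({α, β} : Set M) →ₐ[k0] M := vB.restrictScalars k0
  have hαE : α ∈ adjoin Q ({α, β} : Set M) := subset_adjoin _ _ (.inl rfl)
  have hβE : β ∈ adjoin Q ({α, β} : Set M) := subset_adjoin _ _ (.inr rfl)
  have hα0 : α ≠ 0 := hind.ne_zero 1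
  have hβ0 : β ≠ 0 := hind.ne_zero 2
  set TM : Fin N → M := fun j => algebraMap Q M (T j) with hTM
  have hTE : ∀ j, TM j ∈ adjoin Q ({α, β} : Set M) := fun j => (adjoin Q ({α, β} : Set M)).algebraMap_mem _
  have hEP : ∀ b ∈ adjoin Q ({α, β} : Set M), b ∈ P0 := fun b hb => (hE ⟨b, hb⟩).1
  have hφE : ∀ (b : M) (hb : b ∈ adjoin Q ({α, β} : Set M)), φ ⟨b, hEP b hb⟩ = ⟨b, hb⟩ :=
    fun b hb => (hE ⟨b, hb⟩).2
  have hpE : ∀ j, pt (K.bd G) TM j ∈ adjoin Q ({α, β} : Set M) := by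
    intro j
    exact pt_mem ((adjoin Q ({α, β} : Set M)).restrictScalars B) (K.bd G) _ hTE j
  have hfE : ∀ i, fe f (pt (K.bd G) TM) i ∈ adjoin Q ({α, β} : Set M) := by
    intro i
    exact fe_mem f (((adjoin Q ({α, β} : Set M)).restrictScalars B).restrictScalars k0) _ hpE i
  -- the points near `p`
  have hq : ∀ δ : M, P0.valuation δ < 1 → ∀ j, ∃ q : P0, (q : M) = K.pS G TM δ j ∧
      φ q = ⟨pt (K.bd G) TM j, hpE j⟩ := by
    intro δ hδ j
    have hδP : δ ∈ P0 := (P0.valuation_le_one_iff _).1 hδ.le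
    have hφδ : φ ⟨δ, hδP⟩ = 0 := (rm.zero _).2 hδ
    obtain ⟨η, hη, hφη⟩ : ∃ η : P0, (η : M) = 1 + δ ∧ φ η = 1 := by
      refine ⟨1 + ⟨δ, hδP⟩, rfl, ?_⟩
      rw [map_add, map_one, hφδ, add_zero]
    obtain ⟨q, hq1, hq2⟩ := pt_res rmB (K.bd G)
      (fun j => η ^ (K.wt j) * ⟨TM j, hEP _ (hTE j)⟩) j
    refine ⟨q, ?_, ?_⟩
    · rw [hq1]
      unfold Bk.pS
      congr 1
      funext i
      unfold Bk.dg
      rw [← hη]
      rfl
    · rw [hq2]
      apply Subtype.ext
      have h1 := A11_pt (K.bd G) (fun j => φ (η ^ (K.wt j) * ⟨TM j, hEP _ (hTE j)⟩)) vB j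
      change ((pt (K.bd G) (fun j => φ (η ^ (K.wt j) * ⟨TM j, hEP _ (hTE j)⟩)) j :
          adjoin Q ({α, β} : Set M)) : M) = _ at h1
      rw [h1]
      show _ = pt (K.bd G) TM j
      congr 1
      funext i
      rw [map_mul, map_pow, hφη, one_pow, one_mul, hφE _ (hTE i)]
      rfl
  have hfr : ∀ δ : M, P0.valuation δ < 1 → ∀ (c : M) (hc : c ∈ adjoin Q ({α, β} : Set M)) i,
      ∃ b : P0, (b : M) = c * fe f (K.pS G TM δ) i ∧
        φ b = ⟨c, hc⟩ * ⟨fe f (pt (K.bd G) TM) i, hfE i⟩ := by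
    intro δ hδ c hc i
    choose q hq1 hq2 using hq δ hδ
    obtain ⟨b, hc1, hc2⟩ := fe_res f rm0 q i
    refine ⟨⟨c, hEP _ hc⟩ * b, ?_, ?_⟩
    · change c * (b : M) = _
      rw [hc1]
      have h1 : (fun j => (q j : M)) = K.pS G TM δ := funext hq1
      rw [h1]
    · rw [map_mul, hφE _ hc, hc2]
      congr 1
      apply Subtype.ext
      have h1 := A11_fe f v0 (fun j => φ (q j)) i
      change ((fe f (fun j => φ (q j)) i : adjoin Q ({α, β} : Set M)) : M) = _ at h1
      rw [h1]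
      congr 1
      funext j
      rw [hq2]
      rfl
  have hlt' : P0.valuation h < 1 := by
    rw [A11_sig P0 ε h hlt hhε]
    exact hlt
  have hxr : ∀ i, ∃ b : P0, (b : M) = x i ∧
      φ b = ⟨α, hαE⟩ * ⟨fe f (pt (K.bd G) TM) i, hfE i⟩ := fun i => by
    rw [hx]
    exact hfr h hlt' α hαE i
  have hyr : ∀ i, ∃ b : P0, (b : M) = y i ∧
      φ b = ⟨β, hβE⟩ * ⟨fe f (pt (K.bd G) TM) i, hfE i⟩ := fun i => by
    rw [hy]
    exact hfr ε hlt β hβE i
  have hxP : ∀ i, x i ∈ P0 := by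
    intro i
    obtain ⟨b, hb, -⟩ := hxr i
    rw [← hb]
    exact b.2
  have hyP : ∀ i, y i ∈ P0 := by
    intro i
    obtain ⟨b, hb, -⟩ := hyr i
    rw [← hb]
    exact b.2
  have hg0 : Odd (gr V wB u x y P0 (Pi.single a 1)) := by
    rw [gr_eq V wB u x y P0 φ rmB hxP hyP]
    refine hodd _ _ (fun i => ?_) (fun i => ?_)
    · obtain ⟨b, hb1, hb2⟩ := hxr i
      have h1 : b = ⟨x i, hxP i⟩ := Subtype.ext hb1
      rw [← h1, hb2]
      rfl
    · obtain ⟨b, hb1, hb2⟩ := hyr i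
      have h1 : b = ⟨y i, hyP i⟩ := Subtype.ext hb1
      rw [← h1, hb2]
      rfl
  -- the symmetry
  let σB : M ≃ₐ[B] M := σ.restrictScalars B
  have hσB : ∀ z, σB z = σ z := fun _ => rfl
  have hσT : ∀ j, σ (TM j) = TM j := fun j => σ.commutes _
  have hσp : ∀ j, σ (K.pS G TM h j) = K.pS G TM ε j := by
    intro j
    unfold Bk.pS
    have h1 := A11_pt (K.bd G) (K.dg h TM) (σB : M →ₐ[B] M) j
    change σ (pt (K.bd G) (K.dg h TM) j) = pt (K.bd G) (fun j => σ (K.dg h TM j)) j at h1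
    rw [h1]
    congr 1
    funext i
    unfold Bk.dg
    rw [map_mul, map_pow, map_add, map_one, hσh, hσT]
  have hσx : ∀ i, σ (x i) = y i := by
    intro i
    rw [hx, hy, map_mul, s4]
    have h1 := A11_fe f ((σB : M →ₐ[B] M).restrictScalars k0) (K.pS G TM h) i
    change σ (fe f (K.pS G TM h) i) = fe f (fun j => σ (K.pS G TM h j)) i at h1
    rw [h1, funext hσp]
  have hσy : ∀ i, σ (y i) = x i := by
    intro i
    rw [← hσx, s6]
  have hs0 : ∀ m : M, σ m ∈ P0 ↔ m ∈ P0 := by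
    have hP' : ∀ m : M, m ∈ P0.comap (σ : M →+* M) ↔ σ m ∈ P0 := fun m => Iff.rfl
    have h2 : ∀ m ∈ adjoin Q ({α, β} : Set M), σ m ∈ P0 := by
      intro m hm
      have h3 : σ m ∈ (adjoin Q ({α, β} : Set M)).map (σ : M →ₐ[Q] M) := ⟨m, hm, rfl⟩
      rw [adjoin_map] at h3
      refine hEP _ ?_
      have h4 : ((σ : M →ₐ[Q] M) '' ({α, β} : Set M)) = ({β, α} : Set M) := by
        rw [Set.image_pair]
        change ({σ α, σ β} : Set M) = _
        rw [s4, s5]
      rw [h4, Set.pair_comm] at h3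
      exact h3
    have h3 : ∀ m : M, σ.symm m ∈ P0.comap (σ : M →+* M) ↔ m ∈ P0 := by
      intro m
      rw [hP', σ.apply_symm_apply]
    obtain ⟨-, -, h4⟩ := ord_map σ.symm P0 (P0.comap (σ : M →+* M)) h3 dv
    have h5 : (P0.comap (σ : M →+* M)).valuation ε < 1 := by
      have h7 := (h4 (σ ε)).2 (by rw [A11_sig P0 ε (σ ε) hlt s1]; exact hlt)
      rw [σ.symm_apply_apply] at h7
      exact h7
    have h6 : P0.comap (σ : M →+* M) = P0 := huniq _ (fun m hm => (hP' m).2 (h2 m hm)) h5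
    intro m
    rw [← hP', h6]
  -- odd powers of the symmetry
  have hpow : ∀ r : ℕ, Odd r → ∀ z : M, (σB ^ r) z = σ z := by
    rintro r ⟨i, rfl⟩ z
    have h2 : σB ^ 2 = 1 := by
      ext z
      rw [pow_two]
      exact s6 z
    rw [pow_succ, pow_mul, h2, one_pow, one_mul]
    rfl
  have hTN : K.Nz TM := fun i => by
    obtain ⟨j, hj, hj0⟩ := hT i
    exact ⟨j, hj, (map_ne_zero _).2 hj0⟩
  -- the end
  have hlex := lex_pairs (by omega) S k1 w x y hD e j hB wB hw a
    (lex S.ctx v2 S.two V S.wt k1 w x y hD _ e j hB wB hw) σB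
    (fun P hP h => ⟨by
      change P.valuation (σ ε) < 1
      rw [A11_sig P ε (σ ε) h s1]; exact h, A11_ord P hP ε (σ ε) h s1⟩)
    hσx hσy {P0} (fun P hP => by
      rw [Finset.mem_singleton] at hP
      rw [hP]
      exact ⟨⟨dv, rmB.cst, hlt, hxP, hyP⟩, hs0⟩) (by
      intro r hr P hP hs hne
      rw [Finset.mem_singleton] at hne
      have hs' : ∀ z : M, σB z ∈ P ↔ z ∈ P := by
        intro z
        rw [hσB, ← hpow r hr z]
        exact hs z
      refine path_esc8L K hR hm3 E0 hmE S k1 hk1 w e j hB hB' wB hw f hd F0 h3 h0 hF0 G hG TM hTN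
        (trdeg_img8 T htr) hmu α β hα0 hβ0 h hh hf0 x y hx hy hD σB hσε hσT s4 s5 s6 a P hP hs' ?_
      intro hall
      exact hne (huniq P (fun b hb => hall b (adj8 T hgQ α β b hb)) hP.pos))
  rw [Finset.sum_singleton, ho] at hlex
  change Even (gc V w u x y (Pi.single a 1) + 1 * gr V wB u x y P0 (Pi.single a 1)) at hlex
  rw [one_mul] at hlex
  by_contra h1
  rw [Nat.not_odd_iff_even] at h1
  exact Nat.not_even_iff_odd.2 hg0 ((Nat.even_add.1 hlex).1 h1)

end MP2619.Q6
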