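import Pool.Agent.Lib.MP_2619d0_ag.Q6.M3
import Pool.Agent.Lib.MP_2619d0_ag.Q8.M1
import Pool.Agent.Lib.MP_2619d0_ag.L.A11
import Pool.Agent.Lib.MP_2619d0_ag.Q8.M11
import Pool.Agent.Lib.MP_2619d0_ag.Q8.U4

/-!
The contradiction, double base points
-/

set_option autoImplicit false

namespace MP2619.Q6

open scoped NNReal
open IntermediateField MP2619.R MP2619.N Pool.Agent.Lib.MP_2619d0_ag Pool.Agent.Lib.MP_2619d0_ag.T
  MP2619.Q5

variable {m n N s : ℕ} {F : MvPolynomial (Fin (m + 2)) ℂ} {J : Type} {z : Exp3 (m + 2) ⊕ J → ℂ}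
  {A : Type} [Field A] [CharZero A] [Algebra ℂ A] {u l : Fin (m + 2) → A}
  {v2 : Valuation ℚ ℝ≥0} {V : Valuation A ℝ≥0}

private theorem A12_smul {k M σ : Type} [Fintype σ] [Field k] [Field M] [Algebra k M] {d : ℕ}
    (F : MvPolynomial σ k) (hd : F.IsHomogeneous d) (c : M) (p : σ → M) :
    MvPolynomial.aeval (fun j => c * p j) F = c ^ d * MvPolynomial.aeval p F := by
  rw [MvPolynomial.aeval_def, MvPolynomial.aeval_def, MvPolynomial.eval₂_eq',
    MvPolynomial.eval₂_eq', Finset.mul_sum]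
  refine Finset.sum_congr rfl fun m hm => ?_
  have h1 : m.degree = d := by
    by_contra h
    exact (MvPolynomial.mem_support_iff.1 hm) (hd.coeff_eq_zero h)
  have h2 : ∏ j, c ^ m j = c ^ d := by
    rw [Finset.prod_pow_eq_pow_sum, ← h1, Finsupp.degree_eq_sum]
  rw [← h2]
  simp only [mul_pow, Finset.prod_mul_distrib]
  ring

private theorem A12_eq {m N : ℕ} {k M : Type} [Field k] [Field M] [Algebra k M]
    (F0 : MvPolynomial (Fin (m + 2)) k) {e : ℕ} (h3 : F0.IsHomogeneous e)
    (f : Fin (m + 2) → MvPolynomial (Fin N) k)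
    (h0 : MvPolynomial.aeval f F0 = 0) (p : Fin N → M) (α : M) :
    MvPolynomial.aeval (fun i => α * fe f p i) F0 = 0 := by
  rw [A12_smul F0 h3]
  have h1 := MvPolynomial.comp_aeval_apply (R := k) f (MvPolynomial.aeval p) F0
  rw [h0, map_zero] at h1
  have h2 : MvPolynomial.aeval (fe f p) F0 = 0 := h1.symm
  rw [h2, mul_zero]

private theorem A12_pt {C M L : Type} [Field C] [Field M] [Field L] [Algebra C M] [Algebra C L]
    {s : ℕ} (G : Fin s → Fin s → C) (T : Fin s → M) (g : M →ₐ[C] L) (i : Fin s) :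
    g (pt G T i) = pt G (fun j => g (T j)) i := by
  unfold pt
  rw [map_sum]
  refine Finset.sum_congr rfl fun j _ => ?_
  rw [map_mul, g.commutes]

private theorem A12_fe {k M L : Type} [Field k] [Field M] [Field L] [Algebra k M] [Algebra k L]
    {n s : ℕ} (f : Fin n → MvPolynomial (Fin s) k) (g : M →ₐ[k] L) (p : Fin s → M) (i : Fin n) :
    g (fe f p i) = fe f (fun j => g (p j)) i := by
  unfold fe
  rw [← AlgHom.comp_apply, MvPolynomial.comp_aeval]

private theorem A12_rt {k Q M : Type} [Field k] [Field Q] [Field M] [Algebra k Q] [Algebra k M]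
    (K : Bk n N s) (g : Q →ₐ[k] M) (p : Fin N → Q) {d : ℕ}
    (h : Algebra.trdeg k (K.rt k p) ≤ d) :
    Algebra.trdeg k (K.rt k (fun j => g (p j))) ≤ d := by
  have h1 : K.rt k (fun j => g (p j)) = (K.rt k p).map g := by
    unfold Bk.rt
    rw [adjoin_map]
    congr 1
    ext z
    constructor
    · rintro ⟨i, j, hij, rfl⟩
      exact ⟨p i / p j, ⟨i, j, hij, rfl⟩, map_div₀ g _ _⟩
    · rintro ⟨_, ⟨i, j, hij, rfl⟩, rfl⟩
      exact ⟨i, j, hij, map_div₀ g _ _⟩
  rw [h1]
  refine le_trans (le_of_eq ?_) h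
  exact ((K.rt k p).equivMap g).trdeg_eq.symm

theorem Bk.Mult2L.map (K : Bk n N s) {k Q M : Type} [Field k] [Field Q] [Field M] [Algebra k Q]
    [Algebra k M] {r e : ℕ} {f : Fin r → MvPolynomial (Fin N) k} {p : Fin N → Q}
    (h : K.Mult2L e f p) (g : Q →ₐ[k] M) : K.Mult2L e f (fun j => g (p j)) := by
  obtain ⟨t, E, hE, hEd, h⟩ := h
  refine ⟨t, E, hE, hEd, ?_⟩
  intro κ _ _ P0 hP0 hs
  refine h κ P0 hP0 fun F d hF h0 => hs F d hF ?_
  have h1 := MvPolynomial.comp_aeval_apply (R := k) p g F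
  rw [← h1, h0, map_zero]

/-- the contradiction -/
theorem q17_abs (K : Bk n N s) (hR : RE (m + 2)) (hm3 : 3 ≤ m) (E : ℕ) (hE : m = 2 * E)
    (S : St F z u l v2 V) (k1 : IntermediateField (Qz z) ℂ)
    (hk1 : FiniteDimensional (Qz z) k1) {k0 B : Type} [Field k0] [Field B]
    [Algebra k0 B] [Algebra k0 k1] [Algebra B k1] [IsScalarTower k0 B k1] (w0 : k0)
    (hw : w0 ^ 2 + w0 + 1 = 0)
    (f : Fin (m + 2) → MvPolynomial (Fin N) k0) {d : Fin s → ℕ} (hd : ∀ i, K.MH (f i) d)
    (F0 : MvPolynomial (Fin (m + 2)) k0)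
    (hF0 : MvPolynomial.map ((algebraMap k1 ℂ).comp (algebraMap k0 k1)) F0 = F)
    (h0 : MvPolynomial.aeval f F0 = 0) (j : J) (e : k1) (he0 : e ≠ 0) (hB : BE z k1 B e j)
    (hB' : BE z k1 B e⁻¹ j) (G : Fin N → Fin N → B)
    (hG : AlgebraicIndependent k0 (fun q : Fin N × Fin N => G q.1 q.2))
    {Q : Type} [Field Q] [Algebra k0 Q] [Algebra B Q] [IsScalarTower k0 B Q] (p : Fin N → Q)
    (hsrc : K.Src f (algebraMap k0 B w0) p) (hmu : K.Mult2L E f p) : False := by
  classical
  have c0 : CharZero k0 := (algebraMap k0 k1).charZero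
  let _ : Algebra B A := ((algebraMap k1 A).comp (algebraMap B k1)).toAlgebra
  have t5 : IsScalarTower B k1 A := IsScalarTower.of_algebraMap_eq fun _ => rfl
  -- transcendence of `e`
  have he : Transcendental B e := by
    have h1 := BE_trans S k1 e j hB
    intro halg
    have h2 : IsAlgebraic B (algebraMap k1 A e) := halg.algebraMap
    have h3 : IsAlgebraic (adjoin B (Set.range u)) (algebraMap k1 A e) :=
      h2.tower_top (adjoin B (Set.range u))
    have h4 : algebraMap k1 A e ∈ algebraicClosure (adjoin B (Set.range u)) A :=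
      mem_algebraicClosure_iff.mpr h3
    exact h1 (isAlgebraic_algebraMap
      (⟨algebraMap k1 A e, h4⟩ : algebraicClosure (adjoin B (Set.range u)) A))
  obtain ⟨M, iF, iQ, ik, α, β, hcom, hind, hgen⟩ := exists_M8 (Q := Q) e he hB.gen
  -- algebra structures
  let _ : Algebra k0 M := ((algebraMap k1 M).comp (algebraMap k0 k1)).toAlgebra
  let _ : Algebra B M := ((algebraMap k1 M).comp (algebraMap B k1)).toAlgebra
  have t1 : IsScalarTower k0 k1 M := IsScalarTower.of_algebraMap_eq fun _ => rfl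
  have t2 : IsScalarTower B k1 M := IsScalarTower.of_algebraMap_eq fun _ => rfl
  have t3 : IsScalarTower B Q M := IsScalarTower.of_algebraMap_eq fun b => (hcom b).symm
  have t7 : IsScalarTower k0 B M := IsScalarTower.of_algebraMap_eq fun c => by
    show algebraMap k1 M (algebraMap k0 k1 c) = algebraMap k1 M (algebraMap B k1 (algebraMap k0 B c))
    rw [← IsScalarTower.algebraMap_apply k0 B k1]
  have t8 : IsScalarTower k0 Q M := IsScalarTower.of_algebraMap_eq fun c => by
    rw [IsScalarTower.algebraMap_apply k0 B Q, ← IsScalarTower.algebraMap_apply B Q M,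
      ← IsScalarTower.algebraMap_apply k0 B M]
  -- the root of unity
  obtain ⟨w, hww⟩ : ∃ w : k1, w = algebraMap k0 k1 w0 := ⟨_, rfl⟩
  have hwk : w ^ 2 + w + 1 = 0 := by
    have h1 := congrArg (algebraMap k0 k1) hw
    rw [map_add, map_add, map_pow, map_one, map_zero, ← hww] at h1
    exact h1
  have hwB : algebraMap B k1 (algebraMap k0 B w0) = w := by
    rw [← IsScalarTower.algebraMap_apply, hww]
  have hwB2 : (algebraMap k0 B w0) ^ 2 + algebraMap k0 B w0 + 1 = 0 := by
    have h1 := congrArg (algebraMap k0 B) hw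
    rw [map_add, map_add, map_pow, map_one, map_zero] at h1
    exact h1
  -- the form
  have hinj : Function.Injective ((algebraMap k1 ℂ).comp (algebraMap k0 k1)) :=
    RingHom.injective _
  have h3 : F0.IsHomogeneous 3 := by
    intro e hm0
    refine S.ctx.hom ?_
    rw [← hF0, MvPolynomial.coeff_map]
    exact fun h1 => hm0 (hinj (h1.trans (map_zero _).symm))
  have hFB : MvPolynomial.map ((algebraMap k1 ℂ).comp (algebraMap B k1))
      (MvPolynomial.map (algebraMap k0 B) F0) = F := by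
    rw [MvPolynomial.map_map, ← hF0]
    refine congrArg (fun q => MvPolynomial.map q F0) ?_
    ext c
    show algebraMap k1 ℂ (algebraMap B k1 (algebraMap k0 B c)) =
      algebraMap k1 ℂ (algebraMap k0 k1 c)
    rw [← IsScalarTower.algebraMap_apply k0 B k1]
  -- the point
  obtain ⟨T, hTp, hTn, hTg⟩ := exists_S8 K G (det_bd_ne K G hG) p hsrc.nz
  have hgQ : adjoin B (Set.range T) = ⊤ := hTg.trans hsrc.gen
  let TM : Fin N → M := fun j => algebraMap Q M (T j)
  have hTM : pt (K.bd G) TM = fun j => algebraMap Q M (p j) := by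
    funext i
    rw [← hTp]
    exact (A12_pt (K.bd G) T (IsScalarTower.toAlgHom B Q M) i).symm
  have hfM : ∀ i, fe f (pt (K.bd G) TM) i = algebraMap Q M (fe f p i) := by
    intro i
    rw [hTM]
    exact (A12_fe f (IsScalarTower.toAlgHom k0 Q M) p i).symm
  have hNM : K.Nz TM := by
    intro i
    obtain ⟨q, h1, h2⟩ := hTn i
    exact ⟨q, h1, fun h3 => h2 ((map_eq_zero _).1 h3)⟩
  have htrM : Algebra.trdeg k0 (K.rt k0 (pt (K.bd G) TM)) ≤ m := by
    rw [hTM]
    exact A12_rt K (IsScalarTower.toAlgHom k0 Q M) p hsrc.tr0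
  -- the residue field at the main place
  obtain ⟨f1, f2, f3⟩ := facts8 _ α β hind hgen
  have hαm : α ∈ adjoin Q ({α, β} : Set M) := subset_adjoin _ _ (Or.inl rfl)
  have hβm : β ∈ adjoin Q ({α, β} : Set M) := subset_adjoin _ _ (Or.inr rfl)
  obtain ⟨g1, g2⟩ := f3 ⟨α, hαm⟩ ⟨β, hβm⟩ rfl rfl
  have hpr := hsrc.pr (adjoin Q ({α, β} : Set M)) ⟨α, hαm⟩ ⟨β, hβm⟩ g1 g2 0
  have hf0 : fe f (pt (K.bd G) TM) ≠ 0 := by
    intro h1
    have h2 : ∀ i, fe f p i = 0 := fun i => by
      have h4 := congrFun h1 i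
      rw [hfM i] at h4
      exact (map_eq_zero _).1 h4
    have h5 := hpr.1.ne_zero 0
    apply h5
    unfold zg
    simp only [h2, map_zero, mul_zero, add_zero]
  -- the path
  have h1e : (1 : M) + algebraMap k1 M e ≠ 0 := by
    intro h1
    have h2 : (1 : k1) + e = 0 := by
      apply (algebraMap k1 M).injective
      rw [map_add, map_one, map_zero]
      exact h1
    apply he
    have h4 : e = algebraMap B k1 (-1) := by
      rw [map_neg, map_one]
      linear_combination h2
    rw [h4]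
    exact isAlgebraic_algebraMap _
  obtain ⟨h, hh⟩ : ∃ h : M, (1 + h) * (1 + algebraMap k1 M e) = 1 :=
    ⟨(1 + algebraMap k1 M e)⁻¹ - 1, by rw [add_sub_cancel, inv_mul_cancel₀ h1e]⟩
  let x : Fin (m + 2) → M := fun i => α * fe f (K.pS G TM h) i
  let y : Fin (m + 2) → M := fun i => β * fe f (K.pS G TM (algebraMap k1 M e)) i
  have hD : Dat F z k1 w x y := dat8 k1 hk1 w hwk F0 hF0 e hB.gen α β hind hgen _ hpr x y
    (A12_eq F0 h3 f h0 _ _) (A12_eq F0 h3 f h0 _ _)
  have hmuM : K.Mult2L E f (pt (K.bd G) (fun j => algebraMap Q M (T j))) := by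
    have h1 := Bk.Mult2L.map K hmu (IsScalarTower.toAlgHom k0 Q M)
    have h2 : (fun j => (IsScalarTower.toAlgHom k0 Q M) (p j)) =
        pt (K.bd G) (fun j => algebraMap Q M (T j)) := hTM.symm
    rw [h2] at h1
    exact h1
  -- the path at infinity
  have e1 : Even (gc V w u x y (Pi.single 0 1)) :=
    path_even8 K hR hm3 E hE S k1 w e he0 j hB' (algebraMap k0 B w0) hwB f ⟨d, hd⟩ G hG h hh TM
      hNM htrM α β x y (fun _ => rfl) (fun _ => rfl) hD 0
  -- the path at zero
  have e4 : Odd (gc V w u x y (Pi.single 0 1)) := by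
    refine path_zero8L K hR hm3 E hE S k1 hk1 w e j hB hB' (algebraMap k0 B w0) hwB f ⟨d, hd⟩ F0 h3 h0
      hFB G hG T hTn hgQ hsrc.tr hmuM α β hind hgen h hh hf0 x y (fun _ => rfl) (fun _ => rfl) hD 0
      (fun x0 y0 hx0 hy0 => ?_)
    have hx0' : x0 = fun i => (⟨α, hαm⟩ : adjoin Q ({α, β} : Set M)) *
        algebraMap Q (adjoin Q ({α, β} : Set M)) (fe f p i) := by
      funext i
      apply Subtype.ext
      rw [hx0 i, hfM i]
      rfl
    have hy0' : y0 = fun i => (⟨β, hβm⟩ : adjoin Q ({α, β} : Set M)) *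
        algebraMap Q (adjoin Q ({α, β} : Set M)) (fe f p i) := by
      funext i
      apply Subtype.ext
      rw [hy0 i, hfM i]
      rfl
    rw [hx0', hy0']
    refine main_odd S k1 (algebraMap k0 B w0) hwB2
      (fun i => algebraMap Q (adjoin Q ({α, β} : Set M)) (fe f p i)) _ _
      (MvPolynomial.map (algebraMap k0 B) F0) hFB ?_ 0 hpr
    have h5 := A12_eq F0 h3 f h0 p 1
    have h6 : (fun i => (1 : Q) * fe f p i) = fe f p := by
      funext i
      rw [one_mul]
    rw [h6, ← MvPolynomial.aeval_map_algebraMap B] at h5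
    have h7 := MvPolynomial.comp_aeval_apply (R := B) (fe f p)
      (IsScalarTower.toAlgHom B Q (adjoin Q ({α, β} : Set M)))
      (MvPolynomial.map (algebraMap k0 B) F0)
    rw [h5, map_zero] at h7
    exact h7.symm
  exact (Nat.not_even_iff_odd.2 e4) e1

end MP2619.Q6
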