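import Pool.Agent.Lib.MP_2619d0_ag.Q8.V20
import Pool.Agent.Lib.MP_2619d0_ag.Z.Z0

/-!
# Theorem Q17: the total transform of the bad base points, definitions
-/

set_option autoImplicit false

namespace MP2619.Q6

universe u

open scoped NNReal
open IntermediateField MP2619.R MP2619.N Pool.Agent.Lib.MP_2619d0_ag Pool.Agent.Lib.MP_2619d0_ag.T
  MP2619.Q5

/-- `H` is homogeneous of degree `d i` in the block `i` of the first variables, and of degree `e` in the second variables -/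
def Bk.BH {n N s r : ℕ} (K : Bk n N s) {k : Type} [Field k]
    (H : MvPolynomial (Fin N ⊕ Fin r) k) (d : Fin s → ℕ) (e : ℕ) : Prop :=
  ∀ u : (Fin N ⊕ Fin r) →₀ ℕ, MvPolynomial.coeff u H ≠ 0 →
    (∀ i, ∑ j ∈ Finset.univ.filter (fun j => K.bl j = i), u (Sum.inl j) = d i) ∧
      ∑ j, u (Sum.inr j) = e

/-- `(P0, x)` is in the closure of the graph of `f`: all forms `H (X; Z)` with `H (X; f (X)) = 0` vanish at `(P0, x)`. -/
def Bk.Lim {n N s r : ℕ} (K : Bk n N s) {k κ : Type} [Field k] [Field κ] [Algebra k κ]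
    (f : Fin r → MvPolynomial (Fin N) k) (P0 : Fin N → κ) (x : Fin r → κ) : Prop :=
  ∀ (H : MvPolynomial (Fin N ⊕ Fin r) k) (d : Fin s → ℕ) (e : ℕ), K.BH H d e →
    MvPolynomial.aeval (Sum.elim MvPolynomial.X f : Fin N ⊕ Fin r → MvPolynomial (Fin N) k) H = 0 →
      MvPolynomial.aeval (Sum.elim P0 x : Fin N ⊕ Fin r → κ) H = 0

/-- the cone over the fibre of the graph over `P0` has dimension at most `a` -/
def Bk.FZ {n N s r : ℕ} (K : Bk n N s) {k κ : Type} [Field k] [Field κ] [Algebra k κ]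
    (f : Fin r → MvPolynomial (Fin N) k) (P0 : Fin N → κ) (a : ℕ) : Prop :=
  ∀ (Ω : Type) [Field Ω] [Algebra κ Ω] [Algebra k Ω] [IsScalarTower k κ Ω] (x : Fin r → Ω),
    K.Lim f (fun j => algebraMap κ Ω (P0 j)) x →
      Algebra.trdeg κ (adjoin κ (Set.range x)) ≤ a

/-- the complex form of `FZ` -/
def Bk.FL {n N s r : ℕ} (K : Bk n N s) (f : Fin r → MvPolynomial (Fin N) ℂ) (P0 : Fin N → ℂ)
    (a : ℕ) : Prop :=
  ∃ Λ : Fin a → Fin r → ℂ, ∀ x : Fin r → ℂ, K.Lim f P0 x →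
    (∀ i, ∑ j, Λ i j * x j = 0) → x = 0

/-- the cone `E = 0` has dimension at most `a` -/
def Ed {k : Type} [Field k] {r t : ℕ} (E : Fin t → MvPolynomial (Fin r) k) (a : ℕ) : Prop :=
  ∀ (Ω : Type) [Field Ω] [Algebra k Ω] (x : Fin r → Ω), (∀ i, MvPolynomial.aeval x (E i) = 0) →
    Algebra.trdeg k (adjoin k (Set.range x)) ≤ a

/-- the complex form of `Ed` -/
def EL {r t : ℕ} (E : Fin t → MvPolynomial (Fin r) ℂ) (a : ℕ) : Prop :=
  ∃ Λ : Fin a → Fin r → ℂ, ∀ x : Fin r → ℂ, (∀ i, MvPolynomial.aeval x (E i) = 0) →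
    (∀ i, ∑ j, Λ i j * x j = 0) → x = 0

/-- Every multiple base point in the closure of `p` is double and (the zero cone of the quadratic parts has dimension `≤ E0 + 1`, or the point is a point over `k`), or the dimension of the zero cone plus the dimension of the
fibre of the graph is `≤ r - 2`, or all points of the fibre of the graph are in a closed set `E = 0` of dimension `≤ E0`. -/
def Bk.Mult2L {n N s : ℕ} (K : Bk n N s) (E0 : ℕ) {k M : Type} [Field k] [Field M] [Algebra k M]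
    {r : ℕ} (f : Fin r → MvPolynomial (Fin N) k) (p : Fin N → M) : Prop :=
  ∃ (t : ℕ) (E : Fin t → MvPolynomial (Fin r) k), (∀ i, ∃ e, (E i).IsHomogeneous e) ∧
    Ed E (E0 + 1) ∧
    ∀ (κ : Type) [Field κ] [Algebra k κ] (P0 : Fin N → κ), K.Nz P0 → K.Sp k p P0 →
      TayNe 1 f P0 ∨
      (TayNe 2 f P0 ∧ (Zd f P0 (E0 + 1 + s) ∨ ∃ (b : Fin N → k) (c : Fin s → κ), K.Nz b ∧
        ∀ j, P0 j = c (K.bl j) * algebraMap k κ (b j))) ∨
      (∃ D a : ℕ, D + a + 1 ≤ r + s ∧ Zd f P0 D ∧ K.FZ f P0 a) ∨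
      ∀ x : Fin r → κ, x ≠ 0 → K.Lim f P0 x → ∀ i, MvPolynomial.aeval x (E i) = 0

/-- the condition at a complex point -/
def Bk.GoodL {n N s : ℕ} (K : Bk n N s) (E0 : ℕ) {r t : ℕ} (f : Fin r → MvPolynomial (Fin N) ℂ)
    (T : Finset (Fin N → ℂ)) (E : Fin t → MvPolynomial (Fin r) ℂ) (P0 : Fin N → ℂ) : Prop :=
  TayNe 1 f P0 ∨
    (TayNe 2 f P0 ∧ (ZL f P0 (E0 + 1 + s) ∨
      ∃ b ∈ T, ∃ c : Fin s → ℂ, ∀ j, P0 j = c (K.bl j) * b j)) ∨
    (∃ D a : ℕ, D + a + 1 ≤ r + s ∧ ZL f P0 D ∧ K.FL f P0 a) ∨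
    ∀ x : Fin r → ℂ, x ≠ 0 → K.Lim f P0 x → ∀ i, MvPolynomial.aeval x (E i) = 0

/-- the complex form of `Mult2L` -/
def Bk.MultCL {n N s : ℕ} (K : Bk n N s) (E0 : ℕ) {r : ℕ} (f : Fin r → MvPolynomial (Fin N) ℂ)
    {L : Type u} [Field L] [Algebra ℂ L] (p : Fin N → L) : Prop :=
  ∃ (T : Finset (Fin N → ℂ)) (t : ℕ) (E : Fin t → MvPolynomial (Fin r) ℂ),
    (∀ i, ∃ e, (E i).IsHomogeneous e) ∧ EL E (E0 + 1) ∧
    ∀ P0 : Fin N → ℂ, K.Nz P0 →
      (∀ (g : MvPolynomial (Fin N) ℂ) (d : Fin s → ℕ), K.MH g d → MvPolynomial.aeval p g = 0 →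
        MvPolynomial.aeval P0 g = 0) → K.GoodL E0 f T E P0

end MP2619.Q6
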