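import Pool.Agent.Lib.MP_2619d0_ag.L.Defs

/-!
Row l-2: the relations of the graph over a small field
-/

set_option autoImplicit false

namespace MP2619.Q6

universe u

open scoped NNReal
open IntermediateField MP2619.R MP2619.N Pool.Agent.Lib.MP_2619d0_ag Pool.Agent.Lib.MP_2619d0_ag.T
  MP2619.Q5

/-- a linear functional, applied to the coefficients -/
private noncomputable def L2_ph {k0 : Type} [Field k0] [Algebra k0 ℂ] {σ : Type} (l : ℂ →ₗ[k0] k0)
    (H : MvPolynomial σ ℂ) : MvPolynomial σ k0 :=
  ∑ u ∈ H.support, MvPolynomial.monomial u (l (MvPolynomial.coeff u H))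

private theorem L2_coeff {k0 : Type} [Field k0] [Algebra k0 ℂ] {σ : Type} (l : ℂ →ₗ[k0] k0)
    (H : MvPolynomial σ ℂ) (u : σ →₀ ℕ) :
    MvPolynomial.coeff u (L2_ph l H) = l (MvPolynomial.coeff u H) := by
  classical
  unfold L2_ph
  rw [MvPolynomial.coeff_sum]
  simp only [MvPolynomial.coeff_monomial]
  rw [Finset.sum_ite_eq']
  split_ifs with h
  · rfl
  · rw [MvPolynomial.notMem_support_iff.1 h, map_zero]

private theorem L2_add {k0 : Type} [Field k0] [Algebra k0 ℂ] {σ : Type} (l : ℂ →ₗ[k0] k0)
    (H H' : MvPolynomial σ ℂ) : L2_ph l (H + H') = L2_ph l H + L2_ph l H' := by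
  ext u
  rw [MvPolynomial.coeff_add, L2_coeff, L2_coeff, L2_coeff, MvPolynomial.coeff_add, map_add]

private theorem L2_mul {k0 : Type} [Field k0] [Algebra k0 ℂ] {σ : Type} (l : ℂ →ₗ[k0] k0)
    (c : ℂ) (G : MvPolynomial σ k0) :
    L2_ph l (MvPolynomial.C c * MvPolynomial.map (algebraMap k0 ℂ) G) =
      MvPolynomial.C (l c) * G := by
  ext u
  rw [L2_coeff, MvPolynomial.coeff_C_mul, MvPolynomial.coeff_C_mul, MvPolynomial.coeff_map,
    mul_comm, ← Algebra.smul_def, map_smul, smul_eq_mul, mul_comm]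

private theorem L2_sub {k0 : Type} [Field k0] [Algebra k0 ℂ] {σ τ : Type} (l : ℂ →ₗ[k0] k0)
    (g : τ → MvPolynomial σ k0) (H : MvPolynomial τ ℂ) :
    L2_ph l (MvPolynomial.aeval (fun i => MvPolynomial.map (algebraMap k0 ℂ) (g i)) H) =
      MvPolynomial.aeval g (L2_ph l H) := by
  induction H using MvPolynomial.induction_on' with
  | monomial u c =>
    have h1 : (MvPolynomial.monomial u c : MvPolynomial τ ℂ) =
        MvPolynomial.C c * MvPolynomial.map (algebraMap k0 ℂ) (MvPolynomial.monomial u 1) := by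
      rw [MvPolynomial.map_monomial, map_one, MvPolynomial.C_mul_monomial, mul_one]
    have h2 : MvPolynomial.aeval (fun i => MvPolynomial.map (algebraMap k0 ℂ) (g i))
        (MvPolynomial.monomial u c : MvPolynomial τ ℂ) = MvPolynomial.C c *
          MvPolynomial.map (algebraMap k0 ℂ) (u.prod fun i k => g i ^ k) := by
      rw [MvPolynomial.aeval_monomial, MvPolynomial.algebraMap_eq, Finsupp.prod, Finsupp.prod,
        map_prod]
      simp only [map_pow]
    rw [h2, L2_mul, h1, L2_mul, map_mul, MvPolynomial.aeval_C, MvPolynomial.aeval_monomial, map_one,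
      one_mul, MvPolynomial.algebraMap_eq]
  | add p q hp hq => rw [map_add, L2_add, L2_add, map_add, hp, hq]

/-- The relations of the graph over `ℂ` are spanned by the relations over `k0`: apply the coordinate functionals of a basis
of `ℂ` over `k0` to the coefficients. -/
theorem lim_C {n N s r : ℕ} (K : Bk n N s) {k0 : Type} [Field k0] [Algebra k0 ℂ]
    (f0 : Fin r → MvPolynomial (Fin N) k0) (P0 : Fin N → ℂ) (x : Fin r → ℂ)
    (h : K.Lim f0 P0 x) :
    K.Lim (fun i => MvPolynomial.map (algebraMap k0 ℂ) (f0 i)) P0 x := by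
  intro H d e hBH h0
  classical
  have hf : (Sum.elim MvPolynomial.X (fun i => MvPolynomial.map (algebraMap k0 ℂ) (f0 i)) :
      Fin N ⊕ Fin r → MvPolynomial (Fin N) ℂ) = fun i => MvPolynomial.map (algebraMap k0 ℂ)
        ((Sum.elim MvPolynomial.X f0 : Fin N ⊕ Fin r → MvPolynomial (Fin N) k0) i) := by
    funext i
    rcases i with i | i
    · simp
    · rfl
  rw [hf] at h0
  have hH : ∀ l : ℂ →ₗ[k0] k0,
      MvPolynomial.aeval (Sum.elim P0 x : Fin N ⊕ Fin r → ℂ) (L2_ph l H) = 0 := by
    intro l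
    refine h (L2_ph l H) d e ?_ ?_
    · intro u hu
      rw [L2_coeff] at hu
      apply hBH u
      intro h1
      rw [h1, map_zero] at hu
      exact hu rfl
    · rw [← L2_sub, h0]
      ext u
      rw [L2_coeff, MvPolynomial.coeff_zero, map_zero, MvPolynomial.coeff_zero]
  let b := Module.Basis.ofVectorSpace k0 ℂ
  let s := H.support.biUnion fun u => (b.repr (MvPolynomial.coeff u H)).support
  let mm : (Fin N ⊕ Fin r →₀ ℕ) → ℂ := fun u =>
    u.prod fun i k => (Sum.elim P0 x : Fin N ⊕ Fin r → ℂ) i ^ k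
  have hc : ∀ u ∈ H.support, MvPolynomial.coeff u H =
      ∑ i ∈ s, algebraMap k0 ℂ (b.repr (MvPolynomial.coeff u H) i) * b i := by
    intro u hu
    conv_lhs => rw [← b.linearCombination_repr (MvPolynomial.coeff u H),
      Finsupp.linearCombination_apply, Finsupp.sum]
    rw [Finset.sum_subset (s₂ := s) (Finset.subset_biUnion_of_mem
      (fun u => (b.repr (MvPolynomial.coeff u H)).support) hu)]
    · exact Finset.sum_congr rfl fun i _ => Algebra.smul_def _ _
    · intro i _ hi
      rw [Finsupp.notMem_support_iff.1 hi, zero_smul]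
  have hev : ∀ i, ∑ u ∈ H.support, algebraMap k0 ℂ (b.repr (MvPolynomial.coeff u H) i) * mm u = 0 := by
    intro i
    have h1 := hH (b.coord i)
    unfold L2_ph at h1
    rw [map_sum] at h1
    rw [← h1]
    refine Finset.sum_congr rfl fun u _ => ?_
    rw [MvPolynomial.aeval_monomial]
    rfl
  calc MvPolynomial.aeval (Sum.elim P0 x : Fin N ⊕ Fin r → ℂ) H
      = ∑ u ∈ H.support, MvPolynomial.coeff u H * mm u := by
        conv_lhs => rw [← MvPolynomial.support_sum_monomial_coeff H]
        rw [map_sum]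
        refine Finset.sum_congr rfl fun u _ => ?_
        rw [MvPolynomial.aeval_monomial]
        rfl
    _ = ∑ u ∈ H.support, ∑ i ∈ s,
          b i * (algebraMap k0 ℂ (b.repr (MvPolynomial.coeff u H) i) * mm u) := by
        refine Finset.sum_congr rfl fun u hu => ?_
        conv_lhs => rw [hc u hu]
        rw [Finset.sum_mul]
        exact Finset.sum_congr rfl fun i _ => by ring
    _ = ∑ i ∈ s, b i * ∑ u ∈ H.support,
          algebraMap k0 ℂ (b.repr (MvPolynomial.coeff u H) i) * mm u := by
        rw [Finset.sum_comm]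
        exact Finset.sum_congr rfl fun i _ => by rw [Finset.mul_sum]
    _ = 0 := Finset.sum_eq_zero fun i _ => by rw [hev i, mul_zero]

end MP2619.Q6
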