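import Pool.Agent.Lib.MP_2619d0_ag.L.L1
import Pool.Agent.Lib.MP_2619d0_ag.L.L2
import Pool.Agent.Lib.MP_2619d0_ag.L.L3A

/-!
Row l-4b: the dimension of the fibre of the graph
-/

set_option autoImplicit false

namespace MP2619.Q6

universe u

open scoped NNReal
open IntermediateField MP2619.R MP2619.N Pool.Agent.Lib.MP_2619d0_ag Pool.Agent.Lib.MP_2619d0_ag.T
  MP2619.Q5

/-- a ring homomorphism over `k0` and the values of polynomials over `k0` -/
private theorem L4B_hom {k0 : Type} [Field k0] {σ S T : Type} [CommRing S] [CommRing T]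
    [Algebra k0 S] [Algebra k0 T] (F : S →+* T)
    (hF : ∀ c, F (algebraMap k0 S c) = algebraMap k0 T c) (v : σ → S) (w : σ → T)
    (hv : ∀ i, F (v i) = w i) (H : MvPolynomial σ k0) :
    F (MvPolynomial.aeval v H) = MvPolynomial.aeval w H := by
  let F' : S →ₐ[k0] T := { F with commutes' := hF }
  have h1 := MvPolynomial.comp_aeval_apply v F' H
  have h2 : (fun i => F' (v i)) = w := funext hv
  rw [h2] at h1
  exact h1

/-- the forms in the second variables are homogeneous -/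
private theorem L4B_homog {n N s r : ℕ} (K : Bk n N s) {k0 R : Type} [Field k0] [CommRing R]
    [Algebra k0 R] (c : Fin N → R) (H : MvPolynomial (Fin N ⊕ Fin r) k0) (d : Fin s → ℕ) (e : ℕ)
    (hH : K.BH H d e) :
    (MvPolynomial.aeval (Sum.elim (fun j => MvPolynomial.C (c j)) MvPolynomial.X :
      Fin N ⊕ Fin r → MvPolynomial (Fin r) R) H).IsHomogeneous e := by
  rw [MvPolynomial.aeval_def, MvPolynomial.eval₂_eq']
  refine MvPolynomial.IsHomogeneous.sum _ _ _ fun u hu => ?_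
  have h1 := (hH u (MvPolynomial.mem_support_iff.1 hu)).2
  rw [Fintype.prod_sum_type]
  have h2 : (∏ j : Fin N, (Sum.elim (fun j => MvPolynomial.C (c j)) MvPolynomial.X :
      Fin N ⊕ Fin r → MvPolynomial (Fin r) R) (Sum.inl j) ^ u (Sum.inl j)) =
      MvPolynomial.C (∏ j : Fin N, c j ^ u (Sum.inl j)) := by
    rw [map_prod]
    exact Finset.prod_congr rfl fun j _ => by rw [Sum.elim_inl, map_pow]
  have h3 : (∏ i : Fin r, (Sum.elim (fun j => MvPolynomial.C (c j)) MvPolynomial.X :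
      Fin N ⊕ Fin r → MvPolynomial (Fin r) R) (Sum.inr i) ^ u (Sum.inr i)).IsHomogeneous e := by
    rw [← h1]
    refine MvPolynomial.IsHomogeneous.prod _ _ _ fun i _ => ?_
    rw [Sum.elim_inr]
    exact MvPolynomial.isHomogeneous_X_pow _ _
  rw [h2, MvPolynomial.algebraMap_apply]
  have h4 := ((MvPolynomial.isHomogeneous_C (Fin r) (algebraMap k0 R (MvPolynomial.coeff u H))).mul
    ((MvPolynomial.isHomogeneous_C (Fin r) (∏ j : Fin N, c j ^ u (Sum.inl j))).mul h3))
  rw [zero_add, zero_add] at h4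
  exact h4

/-- PROOF. `gen_dim` (L/L1) with `ι = {q : MvPolynomial (Fin N ⊕ Fin r) k0 × (Fin s → ℕ) × ℕ // K.BH q.1 q.2.1 q.2.2 ∧ aeval (Sum.elim X f0) q.1 = 0}` and `Q q = aeval (Sum.elim (fun j => C (PA j)) X) q.1`, homogeneous of degree
`q.2.2` in the variables `Fin r` over `A`. A common zero `x : Fin r → ℂ` of all `map g (Q q)` satisfies `K.Lim f0 (fun j => g (PA j)) x`, so `K.Lim (map f0) .. x` by `lim_C` (L/L2), so it is zero if the linear forms of `h` vanish. -/
theorem fz_gen {n N s r a : ℕ} (K : Bk n N s) {k0 κ : Type} [Field k0] [Field κ] [Algebra k0 κ]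
    [Algebra k0 ℂ] (A : Subalgebra k0 κ) (g : A →ₐ[k0] ℂ) (f0 : Fin r → MvPolynomial (Fin N) k0)
    (PA : Fin N → A)
    (h : K.FL (fun i => MvPolynomial.map (algebraMap k0 ℂ) (f0 i)) (fun j => g (PA j)) a) :
    K.FZ f0 (fun j => (PA j : κ)) a := by
  classical
  intro Ω _ _ _ _ x hx
  obtain ⟨Λ0, hΛ0⟩ := h
  refine gen_dim A g (ι := {q : MvPolynomial (Fin N ⊕ Fin r) k0 × (Fin s → ℕ) × ℕ //
      K.BH q.1 q.2.1 q.2.2 ∧ MvPolynomial.aeval (Sum.elim MvPolynomial.X f0 :
        Fin N ⊕ Fin r → MvPolynomial (Fin N) k0) q.1 = 0})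
    (fun q => MvPolynomial.aeval (Sum.elim (fun j => MvPolynomial.C (PA j)) MvPolynomial.X :
      Fin N ⊕ Fin r → MvPolynomial (Fin r) A) q.1.1)
    (fun q => ⟨q.1.2.2, L4B_homog K PA q.1.1 q.1.2.1 q.1.2.2 q.2.1⟩) Λ0 ?_ Ω x ?_
  · intro w hw hl
    refine hΛ0 w (lim_C K f0 _ w ?_) hl
    intro H d e hH h0
    have h1 := hw ⟨(H, d, e), hH, h0⟩
    have h2 := L4B_hom (((MvPolynomial.aeval w : MvPolynomial (Fin r) ℂ →ₐ[ℂ] ℂ) :
        MvPolynomial (Fin r) ℂ →+* ℂ).comp (MvPolynomial.map (g : A →+* ℂ)))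
      (fun c => by
        rw [MvPolynomial.algebraMap_apply]
        simp)
      (Sum.elim (fun j => MvPolynomial.C (PA j)) MvPolynomial.X :
        Fin N ⊕ Fin r → MvPolynomial (Fin r) A)
      (Sum.elim (fun j => g (PA j)) w) (by
        rintro (j | i)
        · simp
        · simp) H
    exact h2.symm.trans h1
  · intro q
    have h2 := L4B_hom (((MvPolynomial.aeval x : MvPolynomial (Fin r) κ →ₐ[κ] Ω) :
        MvPolynomial (Fin r) κ →+* Ω).comp (MvPolynomial.map (A.val : A →+* κ)))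
      (fun c => by
        rw [MvPolynomial.algebraMap_apply, IsScalarTower.algebraMap_apply k0 κ Ω]
        simp)
      (Sum.elim (fun j => MvPolynomial.C (PA j)) MvPolynomial.X :
        Fin N ⊕ Fin r → MvPolynomial (Fin r) A)
      (Sum.elim (fun j => algebraMap κ Ω (PA j : κ)) x) (by
        rintro (j | i)
        · simp
        · simp) q.1.1
    exact h2.trans (hx q.1.1 q.1.2.1 q.1.2.2 q.2.1 q.2.2)

end MP2619.Q6
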