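import Pool.Agent.Lib.MP_2619d0_ag.L.L1

/-!
Row l-4c: the dimension of a closed set
-/

set_option autoImplicit false

namespace MP2619.Q6

universe u

open scoped NNReal
open IntermediateField MP2619.R MP2619.N Pool.Agent.Lib.MP_2619d0_ag Pool.Agent.Lib.MP_2619d0_ag.T
  MP2619.Q5

/-- PROOF. `gen_dim` (L/L1) with `κ = k0`, `A = ⊤`, `g` the composition of `Subalgebra.topEquiv` and the algebra map, `Q i` = `E i` over `⊤`. -/
theorem ed_gen {r t a : ℕ} {k0 : Type} [Field k0] [Algebra k0 ℂ]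
    (E : Fin t → MvPolynomial (Fin r) k0) (hE : ∀ i, ∃ e, (E i).IsHomogeneous e)
    (h : EL (fun i => MvPolynomial.map (algebraMap k0 ℂ) (E i)) a) : Ed E a := by
  obtain ⟨Λ0, hΛ⟩ := h
  intro Ω _ _ x hx
  let g : (⊤ : Subalgebra k0 k0) →ₐ[k0] ℂ := (Algebra.ofId k0 ℂ).comp (⊤ : Subalgebra k0 k0).val
  have hg : ∀ i, MvPolynomial.map (g : (⊤ : Subalgebra k0 k0) →+* ℂ)
      (MvPolynomial.map (algebraMap k0 (⊤ : Subalgebra k0 k0)) (E i)) =
        MvPolynomial.map (algebraMap k0 ℂ) (E i) := by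
    intro i
    rw [MvPolynomial.map_map, g.comp_algebraMap]
  have hv : ∀ i, MvPolynomial.map ((⊤ : Subalgebra k0 k0).val : (⊤ : Subalgebra k0 k0) →+* k0)
      (MvPolynomial.map (algebraMap k0 (⊤ : Subalgebra k0 k0)) (E i)) = E i := by
    intro i
    rw [MvPolynomial.map_map]
    exact MvPolynomial.map_id (E i)
  refine gen_dim (κ := k0) ⊤ g
    (fun i => MvPolynomial.map (algebraMap k0 (⊤ : Subalgebra k0 k0)) (E i)) ?_ Λ0 ?_ Ω x ?_
  · intro j
    obtain ⟨e, he⟩ := hE j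
    exact ⟨e, he.map _⟩
  · intro w h1 h2
    refine hΛ w (fun i => ?_) h2
    have h3 := h1 i
    rw [hg i] at h3
    exact h3
  · intro j
    rw [hv j]
    exact hx j

end MP2619.Q6
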