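import Pool.Agent.Lib.MP_2619d0_ag.L.L4A
import Pool.Agent.Lib.MP_2619d0_ag.L.L4B
import Pool.Agent.Lib.MP_2619d0_ag.L.L4C

/-!
Row l-5: from the complex numbers to all extensions
-/

set_option autoImplicit false

namespace MP2619.Q6

universe u

open scoped NNReal
open IntermediateField MP2619.R MP2619.N Pool.Agent.Lib.MP_2619d0_ag Pool.Agent.Lib.MP_2619d0_ag.T
  MP2619.Q5

private theorem L5_prop {m N s : ℕ} (K : Bk m N s) {κ : Type} [Field κ] (P b : Fin N → κ)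
    (hb : K.Nz b) (h : ¬ ∃ c : Fin s → κ, ∀ j, P j = c (K.bl j) * b j) :
    ∃ j l, K.bl j = K.bl l ∧ P j * b l - P l * b j ≠ 0 := by
  by_contra hcon
  push Not at hcon
  apply h
  choose l hl hl0 using hb
  refine ⟨fun i => P (l i) / b (l i), fun j => ?_⟩
  have h1 := hcon j (l (K.bl j)) (hl _).symm
  have h2 := hl0 (K.bl j)
  rw [div_mul_eq_mul_div, eq_div_iff h2]
  exact sub_eq_zero.1 h1

private theorem L5_tay {k0 κ : Type} [Field k0] [Field κ] [Algebra k0 κ] [Algebra k0 ℂ]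
    (A : Subalgebra k0 κ) (g : A →ₐ[k0] ℂ) {N n t : ℕ} (f0 : Fin n → MvPolynomial (Fin N) k0)
    (PA : Fin N → A)
    (h : TayNe t (fun i => MvPolynomial.map (algebraMap k0 ℂ) (f0 i)) (fun j => g (PA j))) :
    TayNe t f0 (fun j => (PA j : κ)) := by
  obtain ⟨i, m, hm, hc⟩ := h
  refine ⟨i, m, hm, fun h0 => hc ?_⟩
  have e1 := tay_algHom g PA (f0 i)
  have e2 := tay_algHom A.val PA (f0 i)
  have h1 : MvPolynomial.coeff m (MvPolynomial.aeval
      (fun j => MvPolynomial.C (PA j) + MvPolynomial.X j : Fin N → MvPolynomial (Fin N) A)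
      (f0 i)) = 0 := by
    have h2 := congrArg (MvPolynomial.coeff m) e2
    rw [MvPolynomial.coeff_map] at h2
    exact Subtype.ext (h2.trans h0)
  rw [MvPolynomial.aeval_map_algebraMap, ← e1, MvPolynomial.coeff_map, h1, map_zero]

private theorem L5_inv {k0 κ : Type} [Field k0] [Field κ] [Algebra k0 κ] [Algebra k0 ℂ]
    (A : Subalgebra k0 κ) (g : A →ₐ[k0] ℂ) (y : A) (hy : (y : κ) ≠ 0) (hi : (y : κ)⁻¹ ∈ A) :
    g y ≠ 0 := by
  intro h0
  have h1 : y * (⟨(y : κ)⁻¹, hi⟩ : A) = 1 := Subtype.ext (mul_inv_cancel₀ hy)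
  have h2 := congrArg g h1
  rw [map_mul, map_one, h0, zero_mul] at h2
  exact zero_ne_one h2

/-- Model: `mult2Z_of_CB` (Z/Z8.lean), copy its private lemma `Z8_prop`. `t`, `E`, `ed_gen hE hEL` for the first three components. Given `κ`, `P0` in the closure; suppose that none of the first three alternatives holds. Given `x ≠ 0` in `κ^n` with `K.Lim f0 P0 x` and
`i` with `aeval x (E i) ≠ 0`; find a contradiction. Let `T'` be the set of the `b ∈ T` such that `P0` is not proportional (in every block) to `b` (over `k0`, see `hTk`), `δ b` the minor as there for `b ∈ T'`. `A` = the subalgebra generated by the `P0 j`, `(P0 (J i))⁻¹`,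
`(δ b)⁻¹` (`b ∈ T'`), the `x i` and `(aeval x (E i))⁻¹`; `g : A →ₐ[k0] ℂ` (`exists_hom_C`). `P' j = g (P0 j)` is in the closure (as there), `K.Lim (map f0) P' (g x)` (`lim_map` (L/L3A), `lim_C` (L/L2)), `g x ≠ 0` because `aeval (g x) (E i) = g (aeval x (E i))` is a unit and
`E i` homogeneous ... (if the degree of `E i` is zero use another inverse: also adjoin `(x l)⁻¹` for some `x l ≠ 0`). `h P'`: (1) `TayNe 1` at `P'` lifts to `P0` (as there, `tay_algHom`). (2) `TayNe 2` lifts in the same way; `ZL` by `zd_gen` (L/L4A); if `P'` is proportional to `b ∈ T` then `b ∉ T'`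
(the minor is a unit), so `P0` is proportional to the `k0`-point `b`. (3) `D`, `a`: `zd_gen`, `fz_gen` (L/L4A, L/L4B). (1), (2), (3) are contradictions. (4) `aeval (g x) (map (E i)) = 0`, but it is a unit. -/
theorem mult2L_of_CB {m N s E0 : ℕ} (K : Bk m N s) {k0 Q : Type} [Field k0] [Algebra k0 ℂ]
    [Field Q] [Algebra k0 Q] {n t : ℕ} (f0 : Fin n → MvPolynomial (Fin N) k0) (p' : Fin N → Q)
    {L : Type u} [Field L] [Algebra ℂ L] (p : Fin N → L)
    (hrel : ∀ (g : MvPolynomial (Fin N) k0) (d : Fin s → ℕ), K.MH g d →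
      MvPolynomial.aeval p (MvPolynomial.map (algebraMap k0 ℂ) g) = 0 →
        MvPolynomial.aeval p' g = 0)
    (hgen : ∀ P : Fin N → ℂ,
      (∀ (g : MvPolynomial (Fin N) k0) (d : Fin s → ℕ), K.MH g d →
        MvPolynomial.aeval p (MvPolynomial.map (algebraMap k0 ℂ) g) = 0 →
          MvPolynomial.aeval P g = 0) →
      ∀ (g : MvPolynomial (Fin N) ℂ) (d : Fin s → ℕ), K.MH g d →
        MvPolynomial.aeval p g = 0 → MvPolynomial.aeval P g = 0)
    (T : Finset (Fin N → ℂ)) (hTk : ∀ b ∈ T, ∃ b0 : Fin N → k0, ∀ j, algebraMap k0 ℂ (b0 j) = b j)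
    (hT : ∀ b ∈ T, K.Nz b) (E : Fin t → MvPolynomial (Fin n) k0)
    (hE : ∀ i, ∃ e, (E i).IsHomogeneous e)
    (hEL : EL (fun i => MvPolynomial.map (algebraMap k0 ℂ) (E i)) (E0 + 1))
    (h : ∀ P0 : Fin N → ℂ, K.Nz P0 →
      (∀ (g : MvPolynomial (Fin N) ℂ) (d : Fin s → ℕ), K.MH g d →
        MvPolynomial.aeval p g = 0 → MvPolynomial.aeval P0 g = 0) →
      K.GoodL E0 (fun i => MvPolynomial.map (algebraMap k0 ℂ) (f0 i)) T
        (fun i => MvPolynomial.map (algebraMap k0 ℂ) (E i)) P0) :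
    K.Mult2L E0 f0 p' := by
  classical
  refine ⟨t, E, hE, ed_gen E hE hEL, ?_⟩
  intro κ _ _ P0 hP0 hsp
  by_contra hcon
  rw [not_or, not_or, not_or] at hcon
  obtain ⟨hn1, hn2, hn3, hn4⟩ := hcon
  push Not at hn4
  obtain ⟨x, hx0, hlim, i0, hi0⟩ := hn4
  obtain ⟨l0, hl0⟩ := Function.ne_iff.1 hx0
  replace hl0 : x l0 ≠ 0 := hl0
  choose J hJ hJ0 using hP0
  choose B hB using hTk
  have hBn : ∀ (b : Fin N → ℂ) (hb : b ∈ T), K.Nz (B b hb) := by
    intro b hb i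
    obtain ⟨j, hj, hj0⟩ := hT b hb i
    refine ⟨j, hj, fun h0 => hj0 ?_⟩
    rw [← hB b hb j, h0, map_zero]
  let TT : Type := {b : {b // b ∈ T} // ¬ ∃ c : Fin s → κ,
    ∀ j, P0 j = c (K.bl j) * algebraMap k0 κ (B b.1 b.2 j)}
  have hno1 : ∀ b : TT, ∃ j l, K.bl j = K.bl l ∧
      P0 j * algebraMap k0 κ (B b.1.1 b.1.2 l) - P0 l * algebraMap k0 κ (B b.1.1 b.1.2 j) ≠ 0 := by
    intro b
    refine L5_prop K P0 (fun j => algebraMap k0 κ (B b.1.1 b.1.2 j)) ?_ b.2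
    intro i
    obtain ⟨j, hj, hj0⟩ := hBn b.1.1 b.1.2 i
    exact ⟨j, hj, fun h0 => hj0 ((map_eq_zero _).1 h0)⟩
  choose j1 l1 hjl hne using hno1
  let δ : TT → κ := fun b => P0 (j1 b) * algebraMap k0 κ (B b.1.1 b.1.2 (l1 b)) -
    P0 (l1 b) * algebraMap k0 κ (B b.1.1 b.1.2 (j1 b))
  let A : Subalgebra k0 κ := Algebra.adjoin k0 ((((Set.range P0 ∪ Set.range fun i => (P0 (J i))⁻¹) ∪
    Set.range fun b => (δ b)⁻¹) ∪ Set.range x) ∪ {(x l0)⁻¹, (MvPolynomial.aeval x (E i0))⁻¹})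
  have hP : ∀ j, P0 j ∈ A := fun j =>
    Algebra.subset_adjoin (Or.inl (Or.inl (Or.inl (Or.inl ⟨j, rfl⟩))))
  have hQ : ∀ i, (P0 (J i))⁻¹ ∈ A := fun i =>
    Algebra.subset_adjoin (Or.inl (Or.inl (Or.inl (Or.inr ⟨i, rfl⟩))))
  have hD : ∀ b, (δ b)⁻¹ ∈ A := fun b => Algebra.subset_adjoin (Or.inl (Or.inl (Or.inr ⟨b, rfl⟩)))
  have hX : ∀ i, x i ∈ A := fun i => Algebra.subset_adjoin (Or.inl (Or.inr ⟨i, rfl⟩))
  have hX0 : (x l0)⁻¹ ∈ A := Algebra.subset_adjoin (Or.inr (Or.inl rfl))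
  have hX1 : (MvPolynomial.aeval x (E i0))⁻¹ ∈ A := Algebra.subset_adjoin (Or.inr (Or.inr rfl))
  have hfin : Finite TT := inferInstance
  have hft : Algebra.FiniteType k0 A :=
    A.fg_iff_finiteType.1 (Subalgebra.fg_def.2
      ⟨_, ((((Set.finite_range P0).union (Set.finite_range _)).union (Set.finite_range _)).union
        (Set.finite_range _)).union (Set.toFinite _), rfl⟩)
  obtain ⟨g⟩ : Nonempty (A →ₐ[k0] ℂ) := exists_hom_C
  let PA : Fin N → A := fun j => ⟨P0 j, hP j⟩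
  let xA : Fin n → A := fun i => ⟨x i, hX i⟩
  have hP1 : K.Nz (fun j => g (PA j)) := by
    intro i
    exact ⟨J i, hJ i, L5_inv A g (PA (J i)) (hJ0 i) (hQ i)⟩
  have hx1 : (fun i => g (xA i)) ≠ 0 := by
    intro h0
    exact L5_inv A g (xA l0) hl0 hX0 (congrFun h0 l0)
  have hcl : ∀ (g' : MvPolynomial (Fin N) ℂ) (d : Fin s → ℕ), K.MH g' d →
      MvPolynomial.aeval p g' = 0 → MvPolynomial.aeval (fun j => g (PA j)) g' = 0 := by
    refine hgen _ fun g0 d hg0 h0 => ?_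
    have h1 := hsp g0 d hg0 (hrel g0 d hg0 h0)
    have h2 : MvPolynomial.aeval PA g0 = 0 := by
      have h3 := MvPolynomial.comp_aeval_apply PA A.val g0
      apply Subtype.ext
      exact h3.trans h1
    have h3 := MvPolynomial.comp_aeval_apply PA g g0
    rw [h2, map_zero] at h3
    exact h3.symm
  have hlim1 : K.Lim (fun i => MvPolynomial.map (algebraMap k0 ℂ) (f0 i)) (fun j => g (PA j))
      (fun i => g (xA i)) := lim_C K f0 _ _ (lim_map K f0 A g PA xA hlim)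
  rcases h _ hP1 hcl with h1 | ⟨h2, h3 | ⟨b, hb, c, hc⟩⟩ | ⟨D, a, hDa, hZ, hF⟩ | h4
  · exact hn1 (L5_tay A g f0 PA h1)
  · exact hn2 ⟨L5_tay A g f0 PA h2, Or.inl (zd_gen A g f0 PA h3)⟩
  · by_cases hbt : ∃ c : Fin s → κ, ∀ j, P0 j = c (K.bl j) * algebraMap k0 κ (B b hb j)
    · obtain ⟨c', hc'⟩ := hbt
      exact hn2 ⟨L5_tay A g f0 PA h2, Or.inr ⟨B b hb, c', hBn b hb, hc'⟩⟩
    · -- the minor is invertible
      let bb : TT := ⟨⟨b, hb⟩, hbt⟩
      have hmem : δ bb ∈ A := by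
        refine sub_mem (mul_mem (hP _) ?_) (mul_mem (hP _) ?_) <;>
        exact Subalgebra.algebraMap_mem _ _
      have h1 : PA (j1 bb) * algebraMap k0 A (B b hb (l1 bb)) -
          PA (l1 bb) * algebraMap k0 A (B b hb (j1 bb)) = (⟨δ bb, hmem⟩ : A) := Subtype.ext rfl
      have h2 := congrArg g h1
      rw [map_sub, map_mul, map_mul, AlgHom.commutes, AlgHom.commutes, hB, hB,
        show g (PA (j1 bb)) = _ from hc _, show g (PA (l1 bb)) = _ from hc _, hjl bb] at h2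
      have h3 : c (K.bl (l1 bb)) * b (j1 bb) * b (l1 bb) -
          c (K.bl (l1 bb)) * b (l1 bb) * b (j1 bb) = 0 := by ring
      rw [h3] at h2
      exact L5_inv A g ⟨δ bb, hmem⟩ (hne bb) (hD bb) h2.symm
  · exact hn3 ⟨D, a, hDa, zd_gen A g f0 PA hZ, fz_gen K A g f0 PA hF⟩
  · have h5 := h4 _ hx1 hlim1 i0
    rw [MvPolynomial.aeval_map_algebraMap] at h5
    have h6 := MvPolynomial.comp_aeval_apply xA g (E i0)
    have h7 : ((MvPolynomial.aeval xA (E i0) : A) : κ) = MvPolynomial.aeval x (E i0) :=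
      MvPolynomial.comp_aeval_apply xA A.val (E i0)
    refine L5_inv A g (MvPolynomial.aeval xA (E i0)) (by rw [h7]; exact hi0) (by rw [h7]; exact hX1)
      ?_
    exact h6.trans h5

end MP2619.Q6
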