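import Pool.Agent.Lib.MP_2619d0_ag.Q8.VRed2
import Pool.Agent.Lib.MP_2619d0_ag.Y.Y13
import Pool.Agent.Lib.MP_2619d0_ag.L.L5
import Pool.Agent.Lib.MP_2619d0_ag.L.M13L
import Pool.Agent.Lib.MP_2619d0_ag.Z.Z7

/-!
# Theorem Q17
-/

set_option autoImplicit false

namespace MP2619.Q9

universe u

open MvPolynomial Pool.Agent.Lib.MP_2619d0_ag Pool.Agent.Lib.MP_2619d0_ag.T MP2619.T MP2619.Q6

/-- the coefficients of finitely many polynomials -/
private theorem F17_fin {n m : ℕ} (f : Fin n → MvPolynomial (Fin m) ℂ) :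
    ∃ cof : Set ℂ, cof.Finite ∧ ∀ i d, MvPolynomial.coeff d (f i) ∈ cof := by
  classical
  refine ⟨insert 0 (⋃ i, (((f i).support.image fun d => MvPolynomial.coeff d (f i) :
    Finset ℂ) : Set ℂ)), ?_, ?_⟩
  · refine Set.Finite.insert _ ?_
    exact Set.finite_iUnion fun i => Finset.finite_toSet _
  · intro i d
    by_cases h : MvPolynomial.coeff d (f i) = 0
    · rw [h]
      exact Or.inl rfl
    · refine Or.inr (Set.mem_iUnion.2 ⟨i, ?_⟩)
      rw [Finset.mem_coe, Finset.mem_image]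
      exact ⟨d, MvPolynomial.mem_support_iff.2 h, rfl⟩

private theorem F17_lift {K : Type} [Field K] [Algebra K ℂ] {n : ℕ} (p : MvPolynomial (Fin n) ℂ)
    (h : ∀ m, ∃ c : K, algebraMap K ℂ c = MvPolynomial.coeff m p) :
    ∃ q : MvPolynomial (Fin n) K, MvPolynomial.map (algebraMap K ℂ) q = p := by
  have h1 : p ∈ Set.range (MvPolynomial.map (σ := Fin n) (algebraMap K ℂ)) := by
    rw [MvPolynomial.mem_range_map_iff_coeffs_subset]
    intro x hx
    rw [Finset.mem_coe, MvPolynomial.mem_coeffs_iff] at hx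
    obtain ⟨m, hm, rfl⟩ := hx
    exact h m
  exact h1

/-- the source of any dimension, the fibres of the graph over the multiple base points in the closure of `p` -/
theorem q17_points {q n N s : ℕ} (K : Bk n N s)
    {F : MvPolynomial (Fin (2 * q + 2 + 4)) ℂ} (hF : VG F)
    (f : Fin (2 * q + 2 + 4) → MvPolynomial (Fin N) ℂ)
    {e : Fin s → ℕ} (hd : ∀ i, K.MH (f i) e) (h0 : aeval f F = 0)
    {L : Type u} [Field L] [Algebra ℂ L] (p : Fin N → L) (hp : ∀ i, ∃ j, K.bl j = i ∧ p j ≠ 0)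
    (hm : K.MultCL (q + 2) f p) (hx : HG F (fun j => aeval p (f j))) :
    ¬ Odd (Module.finrank (ratioField (fun j => aeval p (f j))) L) := by
  classical
  intro hodd
  obtain ⟨cof2, hcf2, hgen⟩ := rel_gens K p
  obtain ⟨T0, t, E, hE, hEL, hT0⟩ := hm
  obtain ⟨cofE, hcfE, hcE⟩ := F17_fin E
  obtain ⟨T, hTdef⟩ : ∃ T : Finset (Fin N → ℂ), T = T0.filter fun b => K.Nz b := ⟨_, rfl⟩
  have hT1 : ∀ b ∈ T, K.Nz b := by
    intro b hb
    rw [hTdef] at hb
    exact (Finset.mem_filter.1 hb).2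
  have hT : ∀ P0 : Fin N → ℂ, K.Nz P0 →
      (∀ (g : MvPolynomial (Fin N) ℂ) (d : Fin s → ℕ), K.MH g d → aeval p g = 0 →
        aeval P0 g = 0) → K.GoodL (q + 2) f T E P0 := by
    intro P0 hP0 hcl
    rcases hT0 P0 hP0 hcl with h1 | ⟨h1, h2 | ⟨b, hb, c, hc⟩⟩ | h2 | h2
    · exact Or.inl h1
    · exact Or.inr (Or.inl ⟨h1, Or.inl h2⟩)
    · refine Or.inr (Or.inl ⟨h1, Or.inr ⟨b, ?_, c, hc⟩⟩)
      rw [hTdef]
      refine Finset.mem_filter.2 ⟨hb, fun i => ?_⟩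
      obtain ⟨j, hj, hj0⟩ := hP0 i
      refine ⟨j, hj, fun h3 => hj0 ?_⟩
      rw [hc j, h3, mul_zero]
    · exact Or.inr (Or.inr (Or.inl h2))
    · exact Or.inr (Or.inr (Or.inr h2))
  have hcfT : (⋃ b ∈ T, Set.range b).Finite :=
    Set.Finite.biUnion (Finset.finite_toSet T) fun b _ => Set.finite_range b
  refine q17_core (mm := 2 * q + 2 + 2) K (RE_holds q) (by omega) (q + 2) (by omega) hF f hd h0 p
    ((cof2 ∪ ⋃ b ∈ T, Set.range b) ∪ cofE) ((hcf2.union hcfT).union hcfE) ?_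
    (srcAllV (D := 2 * q + 2) K hF f hd p hp hx hodd)
  intro k0 Q _ _ _ _ hk0 f0 hf0 p' hrel
  have h1 : (fun i => MvPolynomial.map (algebraMap k0 ℂ) (f0 i)) = f := funext hf0
  have hl : ∀ i, ∃ g : MvPolynomial (Fin (2 * q + 2 + 4)) k0,
      MvPolynomial.map (algebraMap k0 ℂ) g = E i :=
    fun i => F17_lift (E i) fun m => hk0 _ (Or.inr (hcE i m))
  choose Ek hEk using hl
  have hEk' : (fun i => MvPolynomial.map (algebraMap k0 ℂ) (Ek i)) = E := funext hEk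
  refine mult2L_of_CB K f0 p' p hrel (hgen k0 fun c hc => hk0 c (Or.inl (Or.inl hc))) T ?_ hT1
    Ek ?_ ?_ ?_
  · intro b hb
    have h2 : ∀ j, ∃ c : k0, algebraMap k0 ℂ c = b j := fun j =>
      hk0 _ (Or.inl (Or.inr (Set.mem_iUnion₂.2 ⟨b, hb, ⟨j, rfl⟩⟩)))
    choose b0 hb0 using h2
    exact ⟨b0, hb0⟩
  · intro i
    obtain ⟨e, he⟩ := hE i
    refine ⟨e, fun m hm => he ?_⟩
    rw [← hEk i, MvPolynomial.coeff_map]
    exact fun h3 => hm ((map_eq_zero _).1 h3)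
  · rw [hEk']
    exact hEL
  · rw [h1, hEk']
    exact hT

/-- Theorem Q17 -/
theorem q17_final {q n N s : ℕ} (K : Bk n N s)
    {F : MvPolynomial (Fin (2 * q + 2 + 4)) ℂ} (hF : VG F)
    (f : Fin (2 * q + 2 + 4) → MvPolynomial (Fin N) ℂ)
    {e : Fin s → ℕ} (hd : ∀ i, K.MH (f i) e) (h0 : aeval f F = 0)
    {L : Type u} [Field L] [Algebra ℂ L] (p : Fin N → L) (hp : ∀ i, ∃ j, K.bl j = i ∧ p j ≠ 0)
    (hm : K.MultCL (q + 2) f p)
    (hx : HG F (fun j => aeval p (f j))) {r : ℕ} (v : Fin r → L)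
    (hv : AlgebraicIndependent (ratioField (fun j => aeval p (f j))) v) :
    ¬ Odd (Module.finrank (IntermediateField.adjoin (ratioField (fun j => aeval p (f j)))
      (Set.range v)) L) := by
  refine v_red' (m := 2 * q + 2 + 2) K hF f p (fun L' _ _ p' hp' hx' hrel => ?_) hp hx v hv
  refine q17_points K hF f hd h0 p' hp' ?_ hx'
  obtain ⟨T, t, E, hE, hEL, hT⟩ := hm
  refine ⟨T, t, E, hE, hEL, fun P0 hP0 hcl => ?_⟩
  exact hT P0 hP0 fun g d hg hg0 => hcl g d hg (hrel g hg0)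

end MP2619.Q9
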