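import Pool.Agent.Lib.MP_2619d0_ag.L.L1
import Pool.Agent.Lib.MP_2619d0_ag.Z.Z8

/-!
Row l-4a: the dimension of the quadratic zeros
-/

set_option autoImplicit false

namespace MP2619.Q6

universe u

open scoped NNReal
open IntermediateField MP2619.R MP2619.N Pool.Agent.Lib.MP_2619d0_ag Pool.Agent.Lib.MP_2619d0_ag.T
  MP2619.Q5

private theorem L4A_hom {N : ℕ} {R S : Type} [CommRing R] [CommRing S] (f : R →+* S) (n : ℕ)
    (p : MvPolynomial (Fin N) R) :
    MvPolynomial.map f (MvPolynomial.homogeneousComponent n p) =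
      MvPolynomial.homogeneousComponent n (MvPolynomial.map f p) := by
  ext d
  rw [MvPolynomial.coeff_map, MvPolynomial.coeff_homogeneousComponent,
    MvPolynomial.coeff_homogeneousComponent, MvPolynomial.coeff_map]
  split_ifs <;> simp

/-- PROOF. `gen_dim` (L/L1) with `ι = Fin n` and `Q i` = the homogeneous component of degree two of the Taylor polynomial of `f0 i` over `A`: the main case of the proof of `mult2Z_of_CB` (Z/Z8.lean: `QA`, `hQA`, `e1`, `e2`; copy the private lemma `Z8_hom`). -/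
theorem zd_gen {k0 κ : Type} [Field k0] [Field κ] [Algebra k0 κ] [Algebra k0 ℂ]
    (A : Subalgebra k0 κ) (g : A →ₐ[k0] ℂ) {N n D : ℕ} (f0 : Fin n → MvPolynomial (Fin N) k0)
    (PA : Fin N → A)
    (h : ZL (fun i => MvPolynomial.map (algebraMap k0 ℂ) (f0 i)) (fun j => g (PA j)) D) :
    Zd f0 (fun j => (PA j : κ)) D := by
  classical
  obtain ⟨Λ0, hΛ0⟩ := h
  let QA : Fin n → MvPolynomial (Fin N) A := fun i => MvPolynomial.homogeneousComponent 2
    (MvPolynomial.aeval
      (fun j => MvPolynomial.C (PA j) + MvPolynomial.X j : Fin N → MvPolynomial (Fin N) A)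
      (f0 i))
  have hQA : ∀ i, (QA i).IsHomogeneous 2 := fun i =>
    MvPolynomial.homogeneousComponent_isHomogeneous 2 _
  have e1 : ∀ i, MvPolynomial.map (g : A →+* ℂ) (QA i) =
      qp (fun j => g (PA j)) (MvPolynomial.map (algebraMap k0 ℂ) (f0 i)) := by
    intro i
    show MvPolynomial.map (g : A →+* ℂ) (MvPolynomial.homogeneousComponent 2 _) =
      MvPolynomial.homogeneousComponent 2 (MvPolynomial.aeval _ _)
    rw [L4A_hom, tay_algHom g PA (f0 i), MvPolynomial.aeval_map_algebraMap]
  have e2 : ∀ i, MvPolynomial.map (A.val : A →+* κ) (QA i) = qp (fun j => (PA j : κ)) (f0 i) := by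
    intro i
    show MvPolynomial.map (A.val : A →+* κ) (MvPolynomial.homogeneousComponent 2 _) =
      MvPolynomial.homogeneousComponent 2 (MvPolynomial.aeval _ _)
    rw [L4A_hom]
    have h1 := tay_algHom A.val PA (f0 i)
    rw [h1]
    rfl
  intro Ω _ _ w hw
  refine gen_dim A g QA (fun j => ⟨2, hQA j⟩) Λ0 ?_ Ω w ?_
  · intro w' h1 h2
    refine hΛ0 w' (fun i => ?_) h2
    rw [← e1 i]
    exact h1 i
  · intro j
    rw [e2 j]
    exact hw j

end MP2619.Q6
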