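import Pool.Agent.Lib.MP_2619d0_ag.L.Defs
import Pool.Agent.Lib.MP_2619d0_ag.Q5.G6
import Pool.Agent.Lib.MP_2619d0_ag.Q6.C6
import Pool.Agent.Lib.MP_2619d0_ag.Z.Z4

/-!
Row l-6a: the count with the fibre of the graph
-/

set_option autoImplicit false

namespace MP2619.Q6

universe u

open scoped NNReal
open IntermediateField MP2619.R MP2619.N Pool.Agent.Lib.MP_2619d0_ag Pool.Agent.Lib.MP_2619d0_ag.T
  MP2619.Q5

variable {k0 B L : Type} [Field k0] [Field B] [Field L] [Algebra k0 B] [Algebra B L]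
  [Algebra k0 L] [IsScalarTower k0 B L]

/-- A field generated by a set is algebraic over the algebra generated by the set. -/
private theorem L6A_alg {K N : Type} [Field K] [Field N] [Algebra K N] (S : Set N) :
    Algebra.IsAlgebraic (Algebra.adjoin K ((fun x : adjoin K S => (x : N)) ⁻¹' S)) (adjoin K S) := by
  have key : ∀ r ∈ Algebra.adjoin K S, ∃ r' ∈ Algebra.adjoin K
      ((fun x : adjoin K S => (x : N)) ⁻¹' S), (r' : N) = r := by
    intro r hr
    have h1 : (Algebra.adjoin K ((fun x : adjoin K S => (x : N)) ⁻¹' S)).map (adjoin K S).val =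
        Algebra.adjoin K S := by
      rw [AlgHom.map_adjoin]
      congr 1
      ext y
      constructor
      · rintro ⟨x, hx, rfl⟩
        exact hx
      · intro hy
        exact ⟨⟨y, subset_adjoin K S hy⟩, hy, rfl⟩
    rw [← h1] at hr
    obtain ⟨r', hr', h2⟩ := hr
    exact ⟨r', hr', h2⟩
  refine ⟨fun x => ?_⟩
  obtain ⟨r, hr, s, hs, hx⟩ := mem_adjoin_iff_div.1 x.2
  obtain ⟨r', hr', h1⟩ := key r hr
  obtain ⟨s', hs', h2⟩ := key s hs
  have h3 : x = r' * s'⁻¹ := by
    apply Subtype.ext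
    push_cast
    rw [hx, h1, h2, div_eq_mul_inv]
  rw [h3]
  have h4 : IsAlgebraic (Algebra.adjoin K ((fun x : adjoin K S => (x : N)) ⁻¹' S)) r' :=
    isAlgebraic_algebraMap (⟨r', hr'⟩ : Algebra.adjoin K ((fun x : adjoin K S => (x : N)) ⁻¹' S))
  have h5 : IsAlgebraic (Algebra.adjoin K ((fun x : adjoin K S => (x : N)) ⁻¹' S)) s' :=
    isAlgebraic_algebraMap (⟨s', hs'⟩ : Algebra.adjoin K ((fun x : adjoin K S => (x : N)) ⁻¹' S))
  exact h4.mul h5.inv

/-- a transcendence basis chosen in the generating set -/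
private theorem L6A_basis {K N : Type} [Field K] [Field N] [Algebra K N] (S : Set N) (D : ℕ)
    (hD : ¬ Algebra.trdeg K (adjoin K S) ≤ D) :
    ∃ b : Fin (D + 1) → N, (∀ i, b i ∈ S) ∧ AlgebraicIndependent K b := by
  have := L6A_alg (K := K) S
  obtain ⟨s, hs1, hs2⟩ := exists_isTranscendenceBasis_subset (R := K)
    ((fun x : adjoin K S => (x : N)) ⁻¹' S)
  have h4 := hs2.cardinalMk_eq_trdeg
  have h5 : ((D + 1 : ℕ) : Cardinal) ≤ Cardinal.mk s := by
    rw [h4]
    rw [not_le] at hD
    have := Order.succ_le_of_lt hD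
    rw [Cardinal.succ_natCast] at this
    exact_mod_cast this
  have h6 : Cardinal.mk (Fin (D + 1)) ≤ Cardinal.mk s := by
    simpa using h5
  obtain ⟨e⟩ := h6
  refine ⟨fun i => ((e i : adjoin K S) : N), fun i => hs1 (e i).2, ?_⟩
  have h7 := hs2.1.comp e e.injective
  exact h7.map' (f := (adjoin K S).val) (adjoin K S).val.injective

/-- the transcendence degree does not grow over a larger base -/
private theorem L6A_base {K F N : Type} [Field K] [Field F] [Field N] [Algebra K F] [Algebra F N]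
    [Algebra K N] [IsScalarTower K F N] (S : Set N) (D : ℕ)
    (h : Algebra.trdeg K (adjoin K S) ≤ D) : Algebra.trdeg F (adjoin F S) ≤ D := by
  by_contra hD
  obtain ⟨b, hb, hb2⟩ := L6A_basis (K := F) S D hD
  have h1 : AlgebraicIndependent K b := hb2.restrictScalars (algebraMap K F).injective
  have hm : ∀ i, b i ∈ adjoin K S := fun i => subset_adjoin _ _ (hb i)
  have h2 : AlgebraicIndependent K (fun i => (⟨b i, hm i⟩ : adjoin K S)) :=
    AlgebraicIndependent.of_comp (adjoin K S).val h1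
  have h3 := h2.cardinalMk_le_trdeg
  have h4 : ((D + 1 : ℕ) : Cardinal) ≤ Algebra.trdeg K (adjoin K S) := by
    simpa using h3
  have h5 := h4.trans h
  have h6 : D + 1 ≤ D := by exact_mod_cast h5
  omega

private theorem L6A_add {k K L : Type} [Field k] [Field K] [Field L] [Algebra k K] [Algebra K L]
    [Algebra k L] [IsScalarTower k K L] :
    Algebra.trdeg k K + Algebra.trdeg K L = Algebra.trdeg k L :=
  trdeg_add_eq k K

omit [Algebra k0 B] [IsScalarTower k0 B L] in
/-- the degree of `B (K0, y)` over `B` -/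
private theorem L6A_sum (K0 : IntermediateField k0 L) (δ a : ℕ)
    (h1 : Algebra.trdeg B (adjoin B (K0 : Set L)) ≤ δ) (S : Set L)
    (h2 : Algebra.trdeg K0 (adjoin K0 S) ≤ a) :
    Algebra.trdeg B (adjoin B ((K0 : Set L) ∪ S)) ≤ (δ + a : ℕ) := by
  let F : IntermediateField B L := adjoin B (K0 : Set L)
  let ρ : K0 →+* F :=
    { toFun := fun z => ⟨(z : L), subset_adjoin B _ z.2⟩
      map_one' := rfl
      map_mul' := fun _ _ => rfl
      map_zero' := rfl
      map_add' := fun _ _ => rfl }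
  let _ : Algebra K0 F := ρ.toAlgebra
  have : IsScalarTower K0 F L := IsScalarTower.of_algebraMap_eq fun _ => rfl
  have h3 : Algebra.trdeg F (adjoin F S) ≤ a := L6A_base (K := K0) (F := F) S a h2
  have h4 : Algebra.trdeg B F + Algebra.trdeg F (adjoin F S) = Algebra.trdeg B (adjoin F S) :=
    L6A_add
  have h5 : adjoin B ((K0 : Set L) ∪ S) = (adjoin F S).restrictScalars B := by
    rw [adjoin_adjoin_left]
  have h6 : Algebra.trdeg B (adjoin B ((K0 : Set L) ∪ S)) = Algebra.trdeg B (adjoin F S) := by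
    rw [h5]
    rfl
  rw [h6, ← h4, Nat.cast_add]
  exact add_le_add h1 h3

/-- PROOF. Suppose independence; the `r` coordinates of `zg w x y γ` are in the field `adjoin B (K0 ∪ {x j0} ∪ range y)`, where `x j0 ≠ 0` (if `x = 0` drop it): `x i = x j0 * (x i / x j0)`, `x i / x j0 ∈ rat k0 x ≤ K0`. So `r ≤` its transcendence degree over `B`
(`AlgebraicIndependent.cardinalMk_le_trdeg`, as at the end of `trdeg_of_gen`, Z/Z3.lean). It is at most `δ + 1 + a`: `δ` for `adjoin B K0` (`h1`), one for `x j0` (`trdeg_insert8`), and `a` for `adjoin _ (range y)`: `hF` for `Ω = L`, `x = y` gives `trdeg K0 (adjoin K0 (range y)) ≤ a`, and the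
transcendence degree does not grow if the base `K0` is replaced by a larger field (compare the proof of `trdeg_of_gen`, or: some subset of at most `a` of the `y i` is a transcendence basis of `adjoin K0 (range y)` over `K0` (`exists_isTranscendenceBasis_subset`), the other `y i` are algebraic over it). -/
theorem count_fz {n N s r : ℕ} (K : Bk n N s) (f : Fin r → MvPolynomial (Fin N) k0)
    (K0 : IntermediateField k0 L) (b : Fin N → K0) (δ a : ℕ)
    (h1 : Algebra.trdeg B (adjoin B (K0 : Set L)) ≤ δ) (hF : K.FZ f b a) (x y : Fin r → L)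
    (hx : rat k0 x ≤ K0) (hy : K.Lim f (fun j => (b j : L)) y) (w : B) (γ : Fin r → ZMod 3)
    (hr : δ + a + 2 ≤ r) : ¬ AlgebraicIndependent B (zg w x y γ) := by
  intro hi
  have h2 : Algebra.trdeg K0 (adjoin K0 (Set.range y)) ≤ a := hF L y hy
  have h3 := L6A_sum (B := B) K0 δ a h1 (Set.range y) h2
  obtain ⟨c, hc⟩ : ∃ c : L, ∀ m, ∃ q ∈ rat k0 x, x m = q * c := by
    by_cases hv : ∃ i, x i ≠ 0
    · obtain ⟨i, hi0⟩ := hv
      refine ⟨x i, fun m => ⟨x m / x i, subset_adjoin _ _ ⟨m, i, rfl⟩, ?_⟩⟩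
      rw [div_mul_cancel₀ _ hi0]
    · push Not at hv
      exact ⟨0, fun m => ⟨0, zero_mem _, by rw [hv m, mul_zero]⟩⟩
  have h4 := trdeg_insert8 ((K0 : Set L) ∪ Set.range y) c (δ + a) h3
  set E := adjoin B (insert c ((K0 : Set L) ∪ Set.range y)) with hE
  have hz : ∀ m, zg w x y γ m ∈ E := by
    intro m
    obtain ⟨q, hq, e⟩ := hc m
    have e1 : q ∈ E := subset_adjoin B _ (Set.mem_insert_of_mem _ (Or.inl (hx hq)))
    have e2 : c ∈ E := subset_adjoin B _ (Set.mem_insert _ _)
    have e3 : y m ∈ E := subset_adjoin B _ (Set.mem_insert_of_mem _ (Or.inr ⟨m, rfl⟩))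
    have e4 : x m ∈ E := by
      rw [e]
      exact mul_mem e1 e2
    exact add_mem (mul_mem (E.algebraMap_mem _) e4) e3
  have h5 : AlgebraicIndependent B (fun i => (⟨zg w x y γ i, hz i⟩ : E)) :=
    AlgebraicIndependent.of_comp E.val hi
  have h6 := h5.cardinalMk_le_trdeg
  rw [Cardinal.mk_fin] at h6
  have h7 := h6.trans h4
  have h8 : r ≤ δ + a + 1 := by exact_mod_cast h7
  omega

end MP2619.Q6
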